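import Pool.Agent.W603.LV.Ord

/-!
Graded systems of sections on the models of a function field: counting of independent sections.
-/

set_option autoImplicit false

open FF Pool.Agent.W603.LV

namespace Run7.h612.SP

variable {F : Type} [Field F] [Algebra ℂ F]

/-- the functions whose order along each place `P` of `pd` is at least `m` times `c P` -/
def V (pd : Set (Place ℂ F)) (c : Place ℂ F → ℤ) (m : ℕ) : Submodule ℂ F where
  carrier := {g | ∀ P ∈ pd, Ge P (m * c P) g}
  add_mem' h1 h2 P hP := (h1 P hP).add (h2 P hP)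
  zero_mem' P _ := Ge.zero
  smul_mem' a g h P hP := by
    rw [Algebra.smul_def]
    simpa using (Ge.const a).mul (h P hP)

variable {pd : Set (Place ℂ F)} {c : Place ℂ F → ℤ}

theorem mem_V {m : ℕ} {g : F} : g ∈ V pd c m ↔ ∀ P ∈ pd, Ge P (m * c P) g := Iff.rfl

/-- the pole of `u` is at most `D` times the pole of the functions `x` -/
def BD (x : Fin 2 → F) (D : ℕ) (u : F) : Prop :=
  ∀ (P : Place ℂ F) (ν : ℤ), ν ≤ 0 → (∀ i, Ge P ν (x i)) → Ge P (D * ν) u

variable {x : Fin 2 → F}

theorem BD.mono {D D' : ℕ} (h : D ≤ D') {u : F} (hu : BD x D u) : BD x D' u := by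
  intro P ν hν hx
  refine (hu P ν hν hx).mono ?_
  have : (D : ℤ) ≤ D' := by exact_mod_cast h
  nlinarith

theorem BD.mul {D D' : ℕ} {u v : F} (hu : BD x D u) (hv : BD x D' v) : BD x (D + D') (u * v) := by
  intro P ν hν hx
  have := (hu P ν hν hx).mul (hv P ν hν hx)
  refine this.mono ?_
  push_cast
  linarith

theorem BD.add {D D' : ℕ} {u v : F} (hu : BD x D u) (hv : BD x D' v) :
    BD x (max D D') (u + v) := by
  intro P ν hν hx
  exact ((hu.mono (le_max_left _ _)) P ν hν hx).add ((hv.mono (le_max_right _ _)) P ν hν hx)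

theorem BD.const (a : ℂ) : BD x 0 (algebraMap ℂ F a) := by
  intro P ν _ _
  simpa using Ge.const (P := P) a

theorem BD.gen (i : Fin 2) : BD x 1 (x i) := by
  intro P ν _ hx
  simpa using hx i

theorem BD.pow {D : ℕ} {u : F} (hu : BD x D u) (l : ℕ) : BD x (l * D) (u ^ l) := by
  intro P ν hν hx
  have := (hu P ν hν hx).pow l
  refine this.mono ?_
  push_cast
  linarith

/-- integral elements over elements with bounds have bounds -/
theorem BD.integral {p : Polynomial F} (hp : p.Monic) (hc : ∀ i, ∃ D, BD x D (p.coeff i)) {u : F}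
    (hu : p.eval u = 0) : ∃ D, BD x D u := by
  choose D hD using hc
  obtain ⟨T, hT⟩ : ∃ T : ℕ, ∀ i < p.natDegree, D i ≤ T :=
    ⟨∑ i ∈ Finset.range p.natDegree, D i, fun i hi =>
      Finset.single_le_sum (f := D) (fun _ _ => Nat.zero_le _) (Finset.mem_range.2 hi)⟩
  refine ⟨T, fun P ν hν hx => ?_⟩
  by_contra hcon
  unfold Ge at hcon
  push Not at hcon
  obtain ⟨hu0, hlt⟩ := hcon
  have hTν : (T : ℤ) * ν ≤ 0 := mul_nonpos_of_nonneg_of_nonpos (Int.natCast_nonneg _) hν
  have h1 : u ^ p.natDegree = - ∑ i ∈ Finset.range p.natDegree, p.coeff i * u ^ i := by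
    rw [Polynomial.eval_eq_sum_range, Finset.sum_range_succ, Polynomial.coeff_natDegree,
      hp.leadingCoeff, one_mul] at hu
    linear_combination hu
  have h2 : Ge P (p.natDegree * P.ord u + 1) (u ^ p.natDegree) := by
    rw [h1]
    refine (Ge.sum _ _ fun i hi => ?_).neg
    rw [Finset.mem_range] at hi
    have h3 := ((hD i).mono (hT i hi)) P ν hν hx
    have h4 : Ge P (i * P.ord u) (u ^ i) := Or.inr (by rw [P.ord_pow])
    refine (h3.mul h4).mono ?_
    have h5 : (i : ℤ) + 1 ≤ p.natDegree := by exact_mod_cast hi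
    nlinarith
  rcases h2 with h2 | h2
  · exact pow_ne_zero _ hu0 h2
  · rw [P.ord_pow] at h2
    omega

/-- integral elements over the polynomials in `x` have bounds -/
theorem BD.of_integral {u : F} (hu : IsIntegral (Algebra.adjoin ℂ (Set.range x)) u) :
    ∃ D, BD x D u := by
  obtain ⟨p, hp, hpu⟩ := hu
  refine BD.integral (p := p.map (algebraMap _ F)) (hp.map _) (fun i => ?_) (u := u) ?_
  · rw [Polynomial.coeff_map]
    have h1 : ∀ z ∈ Algebra.adjoin ℂ (Set.range x), ∃ D, BD x D z := by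
      intro z hz
      induction hz using Algebra.adjoin_induction with
      | mem z hz =>
        obtain ⟨i, rfl⟩ := hz
        exact ⟨1, BD.gen i⟩
      | algebraMap r => exact ⟨0, BD.const r⟩
      | add a b _ _ ha hb =>
        obtain ⟨D, hD⟩ := ha
        obtain ⟨D', hD'⟩ := hb
        exact ⟨_, hD.add hD'⟩
      | mul a b _ _ ha hb =>
        obtain ⟨D, hD⟩ := ha
        obtain ⟨D', hD'⟩ := hb
        exact ⟨_, hD.mul hD'⟩
    exact h1 _ (p.coeff i).2
  · rwa [Polynomial.eval_map]

/-- common denominators -/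
theorem exists_denom [Algebra.IsAlgebraic (Algebra.adjoin ℂ (Set.range x)) F] {ι : Type}
    [Fintype ι] (b : ι → F) : ∃ (q : F) (D : ℕ), q ≠ 0 ∧ ∀ i, BD x D (q * b i) := by
  classical
  obtain ⟨y, hy, h⟩ := Algebra.IsAlgebraic.exists_integral_multiples
    (R := Algebra.adjoin ℂ (Set.range x)) (A := F) (Finset.univ.image b)
  have h1 : ∀ i, ∃ D, BD x D ((y : F) * b i) := fun i => by
    have h2 := h (b i) (Finset.mem_image_of_mem _ (Finset.mem_univ _))
    rw [Algebra.smul_def] at h2
    exact BD.of_integral h2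
  choose D hD using h1
  refine ⟨y, ∑ i, D i, ?_, fun i => (hD i).mono
    (Finset.single_le_sum (f := D) (fun _ _ => Nat.zero_le _) (Finset.mem_univ i))⟩
  intro h0
  exact hy (Subtype.ext h0)

/-- the weight `N`, and the sections `w0`, `w0 * x i` of weight `N` -/
structure Gt (pd : Set (Place ℂ F)) (c : Place ℂ F → ℤ) (x : Fin 2 → F) (N : ℕ) (w0 : F) :
    Prop where
  pos : 0 < N
  ne : w0 ≠ 0
  mem0 : w0 ∈ V pd c N
  mem : ∀ i, w0 * x i ∈ V pd c N

theorem Gt.mem_V {N : ℕ} {w0 : F} (h : Gt pd c x N w0) {D : ℕ} {u : F} (hu : BD x D u) :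
    u * w0 ^ D ∈ V pd c (N * D) := by
  intro P hP
  have key : ∃ ν : ℤ, ν ≤ 0 ∧ (∀ i, Ge P ν (x i)) ∧ Ge P (N * c P - ν) w0 := by
    have h1 : ∀ i, x i ≠ 0 → N * c P ≤ P.ord w0 + P.ord (x i) := fun i hi => by
      have h2 := (h.mem i P hP).resolve_left (mul_ne_zero h.ne hi)
      rwa [P.ord_mul h.ne hi] at h2
    have h0 : N * c P ≤ P.ord w0 := (h.mem0 P hP).resolve_left h.ne
    have h2 : ∀ i, P.ord (x i) < 0 → x i ≠ 0 := fun i hi h0 => by
      rw [h0, P.ord_zero] at hi
      exact lt_irrefl _ hi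
    refine ⟨min 0 (min (P.ord (x 0)) (P.ord (x 1))), min_le_left _ _, fun i => ?_, Or.inr ?_⟩
    · right
      fin_cases i
      · exact (min_le_right _ _).trans (min_le_left _ _)
      · exact (min_le_right _ _).trans (min_le_right _ _)
    · rcases le_or_gt 0 (min (P.ord (x 0)) (P.ord (x 1))) with h3 | h3
      · rw [min_eq_left h3]
        omega
      · rw [min_eq_right h3.le]
        rcases le_total (P.ord (x 0)) (P.ord (x 1)) with h4 | h4
        · rw [min_eq_left h4] at h3 ⊢
          have := h1 0 (h2 0 h3)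
          omega
        · rw [min_eq_right h4] at h3 ⊢
          have := h1 1 (h2 1 h3)
          omega
  obtain ⟨ν, hν, hx, hw⟩ := key
  refine ((hu P ν hν hx).mul (hw.pow D)).mono ?_
  push_cast
  nlinarith

end Run7.h612.SP
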