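import Pool.Agent.Run7.h612.SP.Bd

/-!
Counting of independent sections.
-/

set_option autoImplicit false
set_option linter.unusedSectionVars false

open FF Pool.Agent.W603.LV

namespace Run7.h612.SP

variable {F : Type} [Field F] [Algebra ℂ F] {pd : Set (Place ℂ F)} {c : Place ℂ F → ℤ}
  {x : Fin 2 → F}

/-- over `E`, there are at most `C m + C'` independent sections of weight `m` -/
def RankLe (pd : Set (Place ℂ F)) (c : Place ℂ F → ℤ) (E : IntermediateField ℂ F) (C C' : ℕ) :
    Prop :=
  ∀ m : ℕ, 1 ≤ m → ∀ (s : ℕ) (v : Fin s → F), (∀ i, v i ∈ V pd c m) → LinearIndependent E v →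
    s ≤ C * m + C'

theorem RankLe.fintype {E : IntermediateField ℂ F} {C C' : ℕ} (h : RankLe pd c E C C') {m : ℕ}
    (hm : 1 ≤ m) {ι : Type} [Fintype ι] (v : ι → F) (hv : ∀ i, v i ∈ V pd c m)
    (hi : LinearIndependent E v) : Fintype.card ι ≤ C * m + C' :=
  h m hm _ (v ∘ (Fintype.equivFin ι).symm) (fun _ => hv _)
    (hi.comp _ (Fintype.equivFin ι).symm.injective)

/-- powers of a transcendental element -/
theorem pow_indep {A : Type} [Field A] [Algebra A F] {y : F} (hy : Transcendental A y) (n : ℕ) :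
    LinearIndependent A fun l : Fin n => y ^ (l : ℕ) := by
  have h1 := (Polynomial.basisMonomials A).linearIndependent.map'
    (Polynomial.aeval y).toLinearMap (by
      rw [LinearMap.ker_eq_bot]
      exact transcendental_iff_injective.1 hy)
  have h2 := h1.comp (fun l : Fin n => (l : ℕ)) Fin.val_injective
  have h3 : ((Polynomial.aeval y).toLinearMap ∘ (Polynomial.basisMonomials A)) ∘
      (fun l : Fin n => (l : ℕ)) = fun l : Fin n => y ^ (l : ℕ) := by
    funext l
    simp [Polynomial.aeval_monomial]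
  rw [← h3]
  exact h2

theorem smul_indep {A : Type} [Field A] [Algebra A F] {ι : Type} {v : ι → F}
    (hv : LinearIndependent A v) {q : F} (hq : q ≠ 0) : LinearIndependent A fun i => q * v i := by
  have h1 := hv.map' (LinearMap.mulLeft A q) (by
    rw [LinearMap.ker_eq_bot]
    exact mul_right_injective₀ hq)
  exact h1

theorem prod_indep {A M : Type} [Field A] [Field M] [Algebra A M] [Algebra A F] [Algebra M F]
    [IsScalarTower A M F] {ι κ : Type} {b : ι → F} {z : κ → M} (hb : LinearIndependent M b)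
    (hz : LinearIndependent A z) :
    LinearIndependent A fun p : κ × ι => algebraMap M F (z p.1) * b p.2 := by
  have h1 := linearIndependent_smul hz hb
  simpa [Algebra.smul_def] using h1

/-- the number of elements independent over `E (x i)` -/
theorem count [Algebra.IsAlgebraic (Algebra.adjoin ℂ (Set.range x)) F] {N : ℕ} {w0 : F}
    (h : Gt pd c x N w0) {E : IntermediateField ℂ F} {C C' : ℕ} (hE : RankLe pd c E C C')
    (i0 : Fin 2) {ι : Type} [Fintype ι] (b : ι → F)
    (hb : ∀ n : ℕ, LinearIndependent E fun p : Fin n × ι => x i0 ^ (p.1 : ℕ) * b p.2) :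
    Fintype.card ι ≤ C * N := by
  obtain ⟨q, D, hq, hD⟩ := exists_denom (x := x) b
  have hN := h.pos
  obtain ⟨r, hr⟩ : ∃ r, r = Fintype.card ι := ⟨_, rfl⟩
  have key : ∀ j : ℕ, 1 ≤ j → (j + 1) * r ≤ C * (N * (D + j)) + C' := by
    intro j hj
    have h1 := smul_indep (hb (j + 1)) (mul_ne_zero hq (pow_ne_zero (D + j) h.ne))
    have h2 := hE.fintype (m := N * (D + j)) (Nat.mul_pos hN (by omega)) _ (fun p => ?_) h1
    · rwa [Fintype.card_prod, Fintype.card_fin, ← hr] at h2
    · have h3 := h.mem_V (((hD p.2).mul ((BD.gen (x := x) i0).pow p.1)).mono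
        (D' := D + j) (by have := p.1.2; omega))
      convert h3 using 1
      ring
  rw [← hr]
  by_contra hcon
  push Not at hcon
  have h1 := key (C * N * D + C' + 1) (by omega)
  have h2 : (C * N * D + C' + 1 + 1) * (C * N + 1) ≤ (C * N * D + C' + 1 + 1) * r :=
    Nat.mul_le_mul_left _ hcon
  have h3 : C * (N * (D + (C * N * D + C' + 1))) + C' =
      C * N * D + C * N * (C * N * D + C' + 1) + C' := by ring
  rw [h3] at h1
  nlinarith

/-- monomials in algebraically independent elements -/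
theorem mono_indep (hx : AlgebraicIndependent ℂ x) (j : ℕ) :
    LinearIndependent ℂ fun p : Fin j × Fin j => x 0 ^ (p.1 : ℕ) * x 1 ^ (p.2 : ℕ) := by
  have h1 := (MvPolynomial.basisMonomials (Fin 2) ℂ).linearIndependent.map'
    (MvPolynomial.aeval x).toLinearMap (by
      rw [LinearMap.ker_eq_bot]
      exact hx)
  let f : Fin j × Fin j → (Fin 2 →₀ ℕ) := fun p =>
    Finsupp.single 0 (p.1 : ℕ) + Finsupp.single 1 (p.2 : ℕ)
  have hf : Function.Injective f := by
    intro p p' hp
    have h2 := DFunLike.congr_fun hp 0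
    have h3 := DFunLike.congr_fun hp 1
    simp [f] at h2 h3
    exact Prod.ext (Fin.ext h2) (Fin.ext h3)
  have h2 := h1.comp f hf
  have h3 : ((MvPolynomial.aeval x).toLinearMap ∘ (MvPolynomial.basisMonomials (Fin 2) ℂ)) ∘ f =
      fun p : Fin j × Fin j => x 0 ^ (p.1 : ℕ) * x 1 ^ (p.2 : ℕ) := by
    funext p
    simp [f, MvPolynomial.aeval_monomial, Finsupp.prod_add_index', pow_add,
      Finsupp.prod_single_index]
  rw [← h3]
  exact h2

theorem count2 {K L : Type} [Field K] [Field L] [Algebra ℂ K] [Algebra ℂ L] [Algebra K L]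
    [IsScalarTower ℂ K L] {pd : Set (Place ℂ L)} {c : Place ℂ L → ℤ} {x : Fin 2 → K}
    [Algebra.IsAlgebraic (Algebra.adjoin ℂ (Set.range fun i => algebraMap K L (x i))) L]
    (hx : AlgebraicIndependent ℂ x) {N : ℕ} {w0 : L}
    (h : Gt pd c (fun i => algebraMap K L (x i)) N w0) {C C' : ℕ}
    (hdim : ∀ m : ℕ, 1 ≤ m → ∀ (ι : Type) [Fintype ι] (v : ι → L), (∀ i, v i ∈ V pd c m) →
      LinearIndependent ℂ v → Fintype.card ι ≤ (C * m + C') ^ 2) {r : ℕ} (b : Fin r → L)
    (hb : LinearIndependent K b) : r ≤ 4 * (C * N) ^ 2 := by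
  obtain ⟨q, D, hq, hD⟩ := exists_denom (x := fun i => algebraMap K L (x i)) b
  have hN := h.pos
  have key : ∀ j : ℕ, 1 ≤ j → (j + 1) * (j + 1) * r ≤ (C * (N * (D + 2 * j)) + C') ^ 2 := by
    intro j hj
    have h1 := smul_indep (prod_indep hb (mono_indep hx (j + 1)))
      (mul_ne_zero hq (pow_ne_zero (D + 2 * j) h.ne))
    have h2 := hdim (N * (D + 2 * j)) (Nat.mul_pos hN (by omega)) _ _ (fun p => ?_) h1
    · rwa [Fintype.card_prod, Fintype.card_prod, Fintype.card_fin, Fintype.card_fin] at h2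
    · have h3 := h.mem_V (((hD p.2).mul (((BD.gen (x := fun i => algebraMap K L (x i)) 0).pow
        p.1.1).mul ((BD.gen (x := fun i => algebraMap K L (x i)) 1).pow p.1.2))).mono
        (D' := D + 2 * j) (by have := p.1.1.2; have := p.1.2.2; omega))
      convert h3 using 1
      rw [map_mul, map_pow, map_pow]
      ring
  obtain ⟨a, ha⟩ : ∃ a, a = C * N := ⟨_, rfl⟩
  obtain ⟨e, he⟩ : ∃ e, e = a * D + C' := ⟨_, rfl⟩
  rw [← ha]
  by_contra hcon
  push Not at hcon
  obtain ⟨j, hj⟩ : ∃ j, j = 4 * a * e + e + 1 := ⟨_, rfl⟩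
  have h1 := key j (by omega)
  have h2 : (j + 1) * (j + 1) * (4 * a ^ 2 + 1) ≤ (j + 1) * (j + 1) * r :=
    Nat.mul_le_mul_left _ hcon
  have h3 : C * (N * (D + 2 * j)) + C' = 2 * a * j + e := by
    rw [he, ha]
    ring
  rw [h3] at h1
  have h4 := h2.trans h1
  have h5 : j * j = 4 * a * e * j + e * j + j := by
    conv_lhs => rw [hj]
    rw [hj]
    ring
  have h6 : e * e ≤ e * j := Nat.mul_le_mul_left e (by omega)
  nlinarith

end Run7.h612.SP
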