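import Pool.Agent.Helper700.Defs

/-!
Definitions: etale covers of surfaces, pencils, and their canonical degree, in terms of function
fields and of their divisorial places.
-/

set_option autoImplicit false

open FF Pool.Agent.W602.GT Pool.Agent.Helper700

namespace Run7.h612.SP

/-- The extension `L` of `K` is unramified at all divisorial places of the function field `L` of a
surface: a function of `K` is a uniformizer. By the purity of the branch locus this means that the
normalisation in `L` of a smooth projective surface with function field `K` is etale over it. -/
def Unr (K L : Type) [Field K] [Algebra ℂ K] [Field L] [Algebra ℂ L] [Algebra K L] : Prop :=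
  ∀ P : Place ℂ L, Divisorial 2 P → ∃ z : K, P.ord (algebraMap K L z) = 1

/-- The smooth projective surfaces with function field `K` are of general type, and the forms of
weight `N` show this: there are three `N`-canonical forms, regular at all prime divisors, whose
ratios contain two algebraically independent functions. -/
def GeneralTypeAt (K : Type) [Field K] [Algebra ℂ K] (N : ℕ) : Prop :=
  Algebra.trdeg ℂ K = 2 ∧ 0 < N ∧ ∃ ω : Fin 3 → (Fin 2 → Derivation ℂ K K) → K,
    (∀ j, ω j ∈ forms 2 K N) ∧
      ∃ D, ω 0 D ≠ 0 ∧ AlgebraicIndependent ℂ fun i : Fin 2 => ω i.succ D / ω 0 D

/-- The irregularity of the smooth projective surfaces with function field `L` is zero: a rational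
one-form which is regular at all prime divisors is zero. -/
def QZero (L : Type) [Field L] [Algebra ℂ L] : Prop :=
  ∀ φ : Derivation ℂ L L →ₗ[L] L, (∀ P : Place ℂ L, Divisorial 2 P →
    ∀ D : Derivation ℂ L L, DerReg P D → P.Reg (φ D)) → φ = 0

/-- A pencil with irreducible general member, that is a rational map with connected fibres to a
curve: it is given by the function field `E` of the curve, a subfield of `L` of transcendence degree
one which is algebraically closed in `L`. -/
structure IsPencil {L : Type} [Field L] [Algebra ℂ L] (E : IntermediateField ℂ L) : Prop where
  trdeg : Algebra.trdeg ℂ E = 1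
  closed : ∀ z : L, IsAlgebraic E z → z ∈ E

/-- The degree of the canonical class of the minimal model on the general member of the pencil `E`
is at most `C`: for some constant `C'` and all `m ≥ 1`, at most `C m + C'` of the `m`-canonical
forms are linearly independent over `E`. -/
def CanonicalDegreeLe {L : Type} [Field L] [Algebra ℂ L] (E : IntermediateField ℂ L) (C : ℕ) :
    Prop :=
  ∃ C' : ℕ, ∀ m : ℕ, 1 ≤ m → ∀ (s : ℕ) (ω : Fin s → (Fin 2 → Derivation ℂ L L) → L),
    (∀ i, ω i ∈ forms 2 L m) → LinearIndependent E ω → s ≤ C * m + C'

end Run7.h612.SP
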