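import Pool.Agent.Run7.h612.SP.Gal
import Pool.Agent.Helper386.D5V.Helper386_FF_Loc4

/-!
Etale Galois covers of surfaces of general type with pencils of bounded degree.
-/

set_option autoImplicit false
set_option linter.unusedSectionVars false
set_option linter.overlappingInstances false

open FF Pool.Agent.W603.LV Pool.Agent.W602.GT Pool.Agent.W603.PV Pool.Agent.Helper700 Module
  IntermediateField

namespace Run7.h612.SP

section act

variable {K L : Type} [Field K] [Field L] [Algebra ℂ K] [Algebra ℂ L] [Algebra K L]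
  [IsScalarTower ℂ K L] {E : IntermediateField ℂ L}

/-- the action on a stable subfield -/
@[reducible] def stAct (hst : ∀ (σ : L ≃ₐ[K] L) (z : L), z ∈ E → σ z ∈ E) :
    MulSemiringAction (L ≃ₐ[K] L) E where
  smul σ z := ⟨σ z, hst σ z z.2⟩
  one_smul _ := rfl
  mul_smul _ _ _ := rfl
  smul_zero σ := Subtype.ext (map_zero σ)
  smul_add σ a b := Subtype.ext (map_add σ (a : L) b)
  smul_one σ := Subtype.ext (map_one σ)
  smul_mul σ a b := Subtype.ext (map_mul σ (a : L) b)

/-- the subfield of `K` as a subfield of `E` -/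
noncomputable def f0Hom (E : IntermediateField ℂ L) : F0 K E →ₐ[ℂ] E :=
  ((IsScalarTower.toAlgHom ℂ K L).comp (F0 K E).val).codRestrict E.toSubalgebra fun z => z.2

end act

section

variable {K L : Type} [Field K] [Field L] [Algebra ℂ K] [Algebra ℂ L] [Algebra K L]
  [IsScalarTower ℂ K L] [FiniteDimensional K L] [Algebra.EssFiniteType ℂ K] [IsGalois K L]

/-- the bound for a stable pencil -/
theorem final (hK : Algebra.trdeg ℂ K = 2) (hu : Unr K L) {c : Place ℂ K → ℤ} {t : L}
    {C C' N : ℕ} {x : Fin 2 → K} {w0 : K} (ht : Transcendental ℂ t)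
    (h : RankLe (pdv L) (fun P => c (bel K P)) ℂ⟮t⟯ C C')
    (hcl : ∀ z : L, IsAlgebraic ℂ⟮t⟯ z → z ∈ ℂ⟮t⟯)
    (hG : Gt (pdv K) c x N w0) (hx : IsTranscendenceBasis ℂ x)
    (hst : ∀ (σ : L ≃ₐ[K] L) (z : L), z ∈ ℂ⟮t⟯ → σ z ∈ ℂ⟮t⟯) :
    finrank K L ≤ 12 * (C * N) := by
  classical
  obtain ⟨E, hE⟩ : ∃ E : IntermediateField ℂ L, E = ℂ⟮t⟯ := ⟨_, rfl⟩
  have halgKL : Algebra.IsAlgebraic K L := Algebra.IsAlgebraic.of_finite K L
  have hxL : IsTranscendenceBasis ℂ fun i => algebraMap K L (x i) := hx.algebraMap_comp (A := L)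
  have hL : Algebra.trdeg ℂ L = 2 := by
    have h1 := _root_.trdeg_add_eq ℂ K (A := L)
    rw [_root_.trdeg_eq_zero_iff.2 halgKL, add_zero, hK] at h1
    exact h1.symm
  have haL : Algebra.IsAlgebraic
      (Algebra.adjoin ℂ (Set.range fun i => algebraMap K L (x i))) L := hxL.isAlgebraic
  have hGL : Gt (pdv L) (fun P => c (bel K P)) (fun i => algebraMap K L (x i)) N
      (algebraMap K L w0) := by
    refine ⟨hG.pos, by simpa using hG.ne, pull_V hu hG.mem0, fun i => ?_⟩
    rw [← map_mul]
    exact pull_V hu (hG.mem i)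
  obtain ⟨i0, hi0⟩ := exists_trans ht hL hcl hxL
  have hff : IsFF ℂ E := by
    rw [hE]
    exact isFF_simple ht
  have hgen : ∃ z : E, ℂ⟮z⟯ = ⊤ := by
    subst hE
    exact ⟨_, gen_top t⟩
  rw [← hE] at h hcl hst hi0
  clear hE
  -- the action on `E`
  let iA : MulSemiringAction (L ≃ₐ[K] L) E := stAct hst
  have hsm : ∀ (σ : L ≃ₐ[K] L) (z : E), ((σ • z : E) : L) = σ z := fun _ _ => rfl
  have hcomm : SMulCommClass (L ≃ₐ[K] L) ℂ E := ⟨fun σ a z => Subtype.ext (by
    rw [hsm, Algebra.smul_def, Algebra.smul_def]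
    change σ (algebraMap ℂ L a * z) = algebraMap ℂ L a * σ z
    rw [map_mul, IsScalarTower.algebraMap_apply ℂ K L, AlgEquiv.commutes])⟩
  let ρ : (L ≃ₐ[K] L) →* (E ≃ₐ[ℂ] E) := MulSemiringAction.toAlgAut (L ≃ₐ[K] L) ℂ E
  have hρ : ∀ (σ : L ≃ₐ[K] L) (z : E), ((ρ σ z : E) : L) = σ z := fun _ _ => rfl
  -- the kernel
  have : Fintype ρ.ker := Fintype.ofFinite _
  have hker0 : 0 < Nat.card ρ.ker := Nat.card_pos
  have hker : ∀ (r : ℕ) (b : Fin r → K), LinearIndependent (F0 K E)⟮x i0⟯ b →
      r * Nat.card ρ.ker ≤ C * N := by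
    intro r b hb
    let M : IntermediateField E L := (FixedPoints.subfield ρ.ker L).toIntermediateField (by
      intro z σ
      have h1 : ρ σ = 1 := σ.2
      have h2 := hρ σ z
      rw [h1] at h2
      exact h2.symm)
    have hKM : ∀ z : K, algebraMap K L z ∈ M := fun z σ => AlgEquiv.commutes (σ : L ≃ₐ[K] L) _
    have h1 := FixedPoints.finrank_eq_card ρ.ker L
    have hu1 : LinearIndependent M (finBasis (FixedPoints.subfield ρ.ker L) L) :=
      (finBasis (FixedPoints.subfield ρ.ker L) L).linearIndependent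
    have hy0 : Transcendental (F0 K E) (x i0) := by
      intro hy
      apply hi0
      let _ : Algebra (F0 K E) E := (f0Hom E).toAlgebra
      have h1 : IsAlgebraic (F0 K E) (algebraMap K L (x i0)) := hy.algebraMap
      have hst3 : IsScalarTower (F0 K E) E L := IsScalarTower.of_algebraMap_eq fun _ => rfl
      exact h1.tower_top E
    have hfam : ∀ n : ℕ, LinearIndependent E
        fun p : Fin n × Fin r => (⟨algebraMap K L (x i0 ^ (p.1 : ℕ) * b p.2), hKM _⟩ : M) := by
      intro n
      have h2 : LinearIndependent (F0 K E)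
          fun l : Fin n => (AdjoinSimple.gen (F0 K E) (x i0)) ^ (l : ℕ) := by
        refine pow_indep (fun halg => ?_) _
        exact hy0 (by simpa using halg.algebraMap (A := K))
      have h3 := prod_indep hb h2
      have h4 := disj hst _ h3
      refine LinearIndependent.of_comp M.val.toLinearMap ?_
      have h5 : (M.val.toLinearMap ∘ fun p : Fin n × Fin r =>
          (⟨algebraMap K L (x i0 ^ (p.1 : ℕ) * b p.2), hKM _⟩ : M)) = fun p : Fin n × Fin r =>
          algebraMap K L (algebraMap (F0 K E)⟮x i0⟯ K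
            (AdjoinSimple.gen (F0 K E) (x i0) ^ (p.1 : ℕ)) * b p.2) := by
        funext p
        change algebraMap K L (x i0 ^ (p.1 : ℕ) * b p.2) = _
        rw [map_pow (algebraMap (F0 K E)⟮x i0⟯ K), AdjoinSimple.algebraMap_gen]
      rw [h5]
      exact h4
    have h5 := count hGL h i0 (ι := Fin r × Fin (finrank (FixedPoints.subfield ρ.ker L) L))
      (fun p => algebraMap K L (b p.1) * finBasis (FixedPoints.subfield ρ.ker L) L p.2) (by
        intro n
        have h6 := prod_indep hu1 (hfam n)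
        have h7 := h6.comp (fun p : Fin n × (Fin r × Fin (finrank
          (FixedPoints.subfield ρ.ker L) L)) => ((p.1, p.2.1), p.2.2)) (by
            intro p p' hp
            simp only [Prod.mk.injEq] at hp
            exact Prod.ext hp.1.1 (Prod.ext hp.1.2 hp.2))
        have h8 : (fun p : Fin n × (Fin r × Fin (finrank (FixedPoints.subfield ρ.ker L) L)) =>
            algebraMap K L (x i0) ^ (p.1 : ℕ) * (algebraMap K L (b p.2.1) *
              finBasis (FixedPoints.subfield ρ.ker L) L p.2.2)) = fun p =>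
            algebraMap K L (x i0 ^ (p.1 : ℕ) * b p.2.1) *
              finBasis (FixedPoints.subfield ρ.ker L) L p.2.2 := by
          funext p
          rw [map_mul, map_pow]
          ring
        rw [h8]
        exact h7)
    rw [Fintype.card_prod, Fintype.card_fin, Fintype.card_fin, h1] at h5
    rwa [Nat.card_eq_fintype_card]
  -- the image
  let _ : Algebra (F0 K E) E := (f0Hom E).toAlgebra
  have hst2 : IsScalarTower ℂ (F0 K E) E := IsScalarTower.of_algebraMap_eq fun a =>
    ((f0Hom E).commutes a).symm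
  have hmap : ∀ z : F0 K E, ((algebraMap (F0 K E) E z : E) : L) = algebraMap K L z := fun _ => rfl
  have hgal : IsGaloisGroup ρ.range (F0 K E) E := by
    refine ⟨inferInstance, ⟨?_⟩, ⟨?_⟩⟩
    · rintro ⟨_, σ, rfl⟩ a z
      apply Subtype.ext
      rw [Algebra.smul_def, Algebra.smul_def]
      change σ (algebraMap K L a * z) = algebraMap K L a * σ z
      rw [map_mul, AlgEquiv.commutes]
    · intro z hz
      have h1 : ∀ σ : L ≃ₐ[K] L, σ z = z := fun σ => congrArg Subtype.val (hz ⟨ρ σ, σ, rfl⟩)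
      obtain ⟨a, ha⟩ := (IsGalois.mem_range_algebraMap_iff_fixed (F := K) (z : L)).2 h1
      have h2 : a ∈ F0 K E := by
        change algebraMap K L a ∈ E
        rw [ha]
        exact z.2
      exact ⟨⟨a, h2⟩, Subtype.ext ha⟩
  have hfd : FiniteDimensional (F0 K E) E := IsGaloisGroup.finiteDimensional ρ.range (F0 K E) E
  have hGal : IsGalois (F0 K E) E := IsGaloisGroup.isGalois ρ.range (F0 K E) E
  have hcard := IsGaloisGroup.card_eq_finrank ρ.range (F0 K E) E
  have halgE : Algebra.IsAlgebraic (F0 K E) E := Algebra.IsAlgebraic.of_finite _ _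
  have hff0 : IsFF ℂ (F0 K E) := IsFF.of_isAlgebraic (K' := E)
  -- the bound over `K`
  have hy : Transcendental (F0 K E) (x i0) := by
    intro hy
    apply hi0
    have h1 : IsAlgebraic (F0 K E) (algebraMap K L (x i0)) := hy.algebraMap
    have hst3 : IsScalarTower (F0 K E) E L := IsScalarTower.of_algebraMap_eq fun _ => rfl
    exact h1.tower_top E
  have hram : ∀ p : Place ℂ (F0 K E), ∃ P : Place ℂ E, under (F0 K E) P = p ∧
      ram (F0 K E) P ≤ C * N / Nat.card ρ.ker := by
    intro p
    obtain ⟨w, e, he, hwd, he0, hwp⟩ := exists_place (F0 K E) hff0.trdeg hK hy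
      (M := C * N / Nat.card ρ.ker)
      (fun r b hb => (Nat.le_div_iff_mul_le hker0).2 (hker r b hb)) p
    obtain ⟨W, e1, hW⟩ := exists_above (L := L) w
    obtain ⟨v, hv, -⟩ := hu.over (div_up hW hwd)
    have hvw : v = w := over_unique hv hW
    subst hvw
    have h1 : ∀ f : F0 K E, W.ord (algebraMap K L f) = e * p.ord f := fun f => by
      rw [hv.2, hwp, Nat.cast_one, one_mul]
    obtain ⟨π, hπ0, hπ⟩ := p.surj
    obtain ⟨e2, P, hP⟩ := FF.exists_over (K := E) W ⟨algebraMap (F0 K E) E π, by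
      change W.ord (algebraMap K L π) ≠ 0
      rw [h1, hπ]
      omega⟩
    have h2 : ∀ f : F0 K E, (e : ℤ) * p.ord f =
        e2 * (ram (F0 K E) P * (under (F0 K E) P).ord f) := by
      intro f
      rw [← ord_under (F := F0 K E) P f, ← hP.2, ← h1]
      rfl
    have h3 : (0 : ℤ) < e2 := by exact_mod_cast hP.1
    have h4 : (0 : ℤ) < ram (F0 K E) P := by exact_mod_cast (ram_spec (F := F0 K E) P).1
    have h5 : (0 : ℤ) < e := by exact_mod_cast he0
    have h6 : under (F0 K E) P = p := by
      apply Place.eq_of_le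
      intro f hf0 hf
      have h7 := h2 f
      have h8 : 0 ≤ (e : ℤ) * p.ord f := by
        rw [h7]
        positivity
      exact nonneg_of_mul_nonneg_right h8 h5
    refine ⟨P, h6, ?_⟩
    have h7 := h2 π
    rw [h6, hπ, mul_one, mul_one] at h7
    have h8 : (ram (F0 K E) P : ℤ) ≤ e := by nlinarith
    have h9 : ram (F0 K E) P ≤ e := by exact_mod_cast h8
    exact h9.trans he
  obtain ⟨z, hz⟩ := hgen
  have hbd := rh_bound (F := F0 K E) (E := E) hz hram
  -- the count
  have h1 : Nat.card (L ≃ₐ[K] L) = finrank K L := IsGalois.card_aut_eq_finrank K L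
  have h2 := Subgroup.card_mul_index ρ.ker
  rw [Subgroup.index_ker, h1, hcard] at h2
  rw [← h2]
  calc Nat.card ρ.ker * finrank (F0 K E) E
      ≤ Nat.card ρ.ker * (12 * (C * N / Nat.card ρ.ker)) := Nat.mul_le_mul_left _ hbd
    _ = 12 * (Nat.card ρ.ker * (C * N / Nat.card ρ.ker)) := by ring
    _ ≤ 12 * (C * N) := Nat.mul_le_mul_left _ (Nat.mul_div_le _ _)

end

end Run7.h612.SP
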