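import Pool.Agent.Run7.h612.SP.The
import Pool.Agent.Helper700.Up2
import Pool.Agent.Run7.h612.SP.Defs

/-!
The values of pluricanonical forms of a surface and of its etale covers.
-/

set_option autoImplicit false
set_option linter.unusedSectionVars false
set_option linter.overlappingInstances false

open FF Pool.Agent.W603.LV Pool.Agent.W602.GT Pool.Agent.Helper700 Module

namespace Run7.h612.SP

section one

variable {L : Type} [Field L] [Algebra ℂ L] {n : ℕ}

/-- the determinant of coordinates on vector fields -/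
noncomputable def jd (D : Fin n → Derivation ℂ L L) (y : Fin n → L) : L :=
  (Matrix.of fun i j => D i (y j)).det

theorem jd_chain {y z : Fin n → L} {F : Fin n → Derivation ℂ L L}
    (hz : IsTranscendenceBasis ℂ z) (hF : ∀ i j, F i (z j) = if i = j then 1 else 0)
    (D : Fin n → Derivation ℂ L L) : jd D y = jd D z * jd F y := by
  unfold jd
  rw [← Matrix.det_mul]
  congr 1
  ext i j
  rw [Matrix.mul_apply, Matrix.of_apply]
  have := Pool.Agent.W73.PG.PULL.chain (L := L) z hz F hF (D i) (y j)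
  simpa using this

theorem jd_dual {y : Fin n → L} {E : Fin n → Derivation ℂ L L}
    (hE : ∀ i j, E i (y j) = if i = j then 1 else 0) : jd E y = 1 := by
  unfold jd
  have h : (Matrix.of fun i j => E i (y j)) = 1 := by
    ext i j
    rw [Matrix.of_apply, hE, Matrix.one_apply]
  rw [h, Matrix.det_one]

/-- regularity of forms in terms of a frame -/
theorem regAt_iff {P : Place ℂ L} {z : Fin n → L} {F : Fin n → Derivation ℂ L L} {i0 : Fin n}
    (h : Lo P z F i0) {y : Fin n → L} {E : Fin n → Derivation ℂ L L}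
    (hE : ∀ i j, E i (y j) = if i = j then 1 else 0) (m : ℕ)
    (g : L) : RegAt P (fun D => jd D y ^ m * g) ↔ Ge P (m * (-P.ord (jd F y))) g := by
  have h0 : jd F y ≠ 0 := by
    intro h0
    have h1 := jd_chain (y := y) h.bas h.dual E
    rw [jd_dual hE, h0, mul_zero] at h1
    exact one_ne_zero h1
  constructor
  · intro hr
    have h1 : Ge P 0 (jd F y ^ m * g) := hr F h.pres
    have h2 := Ge.of_mul (pow_ne_zero m h0) h1
    rw [P.ord_pow] at h2
    exact h2.mono (by ring_nf; exact le_rfl)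
  · intro hg D hD
    have h1 : Ge P 0 (jd D z) := by
      refine ge_det P _ 0 (fun _ _ => 0) (fun a b => ?_) fun σ => by simp
      exact hD a _ (h.reg b)
    have h2 : Ge P (P.ord (jd F y)) (jd F y) := Or.inr le_rfl
    have h3 := ((h1.mul h2).pow m).mul hg
    rw [← jd_chain h.bas h.dual D] at h3
    exact h3.mono (by ring_nf; exact le_rfl)

theorem pluri_jd (y : Fin n → L) (m : ℕ) (g : L) :
    IsPluri m (fun D : Fin n → Derivation ℂ L L => jd D y ^ m * g) := by
  intro A D
  have h1 := det_pluri (k := ℂ) y A D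
  rw [pow_one] at h1
  change (jd (fun i => ∑ j, A i j • D j) y) ^ m * g = A.det ^ m * (jd D y ^ m * g)
  have h2 : jd (fun i => ∑ j, A i j • D j) y = A.det * jd D y := h1
  rw [h2, mul_pow, mul_assoc]

theorem form_eq {y : Fin n → L} {E : Fin n → Derivation ℂ L L} (hy : IsTranscendenceBasis ℂ y)
    (hE : ∀ i j, E i (y j) = if i = j then 1 else 0) {m : ℕ}
    {ω : (Fin n → Derivation ℂ L L) → L} (hω : IsPluri m ω) :
    ω = fun D => jd D y ^ m * ω E := by
  funext D
  exact pl_coord hy hE hω D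

end one

section

variable {K : Type} [Field K] [Algebra ℂ K]

open Classical in
/-- the order of the form `dy 0 ∧ dy 1` at a divisorial place, up to the sign: the opposite of the
order of the canonical divisor -/
noncomputable def cK (y : Fin 2 → K) (v : Place ℂ K) : ℤ :=
  if h : ∃ (z : Fin 2 → K) (F : Fin 2 → Derivation ℂ K K) (i0 : Fin 2), Lo v z F i0 then
    -v.ord (jd h.choose_spec.choose y) else 0

theorem cK_spec (y : Fin 2 → K) {v : Place ℂ K}
    (h : ∃ (z : Fin 2 → K) (F : Fin 2 → Derivation ℂ K K) (i0 : Fin 2), Lo v z F i0) :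
    ∃ (z : Fin 2 → K) (F : Fin 2 → Derivation ℂ K K) (i0 : Fin 2), Lo v z F i0 ∧
      cK y v = -v.ord (jd F y) := by
  unfold cK
  rw [dif_pos h]
  obtain ⟨i0, h1⟩ := h.choose_spec.choose_spec
  exact ⟨_, _, i0, h1, rfl⟩

variable {L : Type} [Field L] [Algebra ℂ L] [Algebra K L] [IsScalarTower ℂ K L]
  [FiniteDimensional K L]

theorem over_unique {P : Place ℂ L} {v v' : Place ℂ K} {e e' : ℕ} (h : Over P v e)
    (h' : Over P v' e') : v = v' := by
  apply Place.eq_of_le
  intro f hf0 hf
  have h1 := h.2 f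
  rw [h'.2 f] at h1
  have h2 : (0 : ℤ) < e := by exact_mod_cast h.1
  have h3 : (0 : ℤ) < e' := by exact_mod_cast h'.1
  have h4 : 0 ≤ (e : ℤ) * v.ord f := mul_nonneg h2.le hf
  rw [← h1] at h4
  exact nonneg_of_mul_nonneg_right h4 h3

variable (K) in
/-- the place of `K` below a place of `L` -/
noncomputable def bel (P : Place ℂ L) : Place ℂ K := (exists_below (K := K) P).choose

theorem bel_eq {P : Place ℂ L} {v : Place ℂ K} {e : ℕ} (h : Over P v e) : bel K P = v := by
  obtain ⟨e', he'⟩ := (exists_below (K := K) P).choose_spec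
  exact over_unique he' h

theorem Unr.over (h : Unr K L) {P : Place ℂ L} (hP : Divisorial 2 P) :
    ∃ v : Place ℂ K, Over P v 1 ∧ Divisorial 2 v := by
  obtain ⟨v, e, hv⟩ := exists_below (K := K) P
  obtain ⟨z, hz⟩ := h P hP
  rw [hv.2] at hz
  have h1 : (e : ℤ) ∣ 1 := ⟨_, hz.symm⟩
  have h2 : e = 1 := by
    have := Int.eq_one_of_dvd_one (Int.natCast_nonneg e) h1
    exact_mod_cast this
  subst h2
  exact ⟨v, hv, div_down hv hP⟩

/-- the divisorial places -/
def pdv (L : Type) [Field L] [Algebra ℂ L] : Set (Place ℂ L) := {P | Divisorial 2 P}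

/-- lifted frames -/
theorem lift_frame {P : Place ℂ L} {v : Place ℂ K} (h : Over P v 1) {z : Fin 2 → K}
    {F : Fin 2 → Derivation ℂ K K} {i0 : Fin 2} (hl : Lo v z F i0) (hK : Algebra.trdeg ℂ K = 2) :
    ∃ F' : Fin 2 → Derivation ℂ L L, Lo P (fun i => algebraMap K L (z i)) F' i0 ∧
      ∀ i f, F' i (algebraMap K L f) = algebraMap K L (F i f) := by
  have halg : Algebra.IsAlgebraic K L := Algebra.IsAlgebraic.of_finite K L
  have h1 : ∀ i, ∃ D' : Derivation ℂ L L, ∀ f, D' (algebraMap K L f) = algebraMap K L (F i f) :=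
    fun i => by
      obtain ⟨D', h2, -⟩ := Pool.Agent.W357.PG.main.{0, 0} ℂ K L 2 hK (F i)
      exact ⟨D', h2⟩
  choose F' hF' using h1
  refine ⟨F', ⟨hl.bas.algebraMap_comp (A := L), fun i j => ?_, ?_, fun i => ?_, fun i => ?_⟩, hF'⟩
  · rw [hF', hl.dual]
    split_ifs
    · exact map_one _
    · exact map_zero _
  · rw [h.2, hl.unif]
    norm_num
  · exact h.reg.2 (hl.reg i)
  · exact Pool.Agent.W762.PG.main.{0, 0} ℂ K L v P 1 h (F' i) (fun x hx => by
      rw [hF']
      exact h.reg.2 (hl.pres i x hx)) (Or.inl rfl)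

variable [Algebra.EssFiniteType ℂ K]

/-- **The values of the pluricanonical forms of an etale cover.** -/
theorem mem_forms (hK : Algebra.trdeg ℂ K = 2) (hu : Unr K L) {y : Fin 2 → K}
    (hy : IsTranscendenceBasis ℂ y) {E' : Fin 2 → Derivation ℂ L L}
    (hE' : ∀ i j, E' i (algebraMap K L (y j)) = if i = j then 1 else 0) (m : ℕ) (g : L) :
    g ∈ V (pdv L) (fun P => cK y (bel K P)) m ↔ ∃ ω ∈ forms 2 L m, ω E' = g := by
  have halg : Algebra.IsAlgebraic K L := Algebra.IsAlgebraic.of_finite K L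
  have hyL : IsTranscendenceBasis ℂ fun i => algebraMap K L (y i) :=
    hy.algebraMap_comp (A := L)
  have key : ∀ P : Place ℂ L, Divisorial 2 P → ∀ g : L,
      (RegAt P (fun D => jd D (fun i => algebraMap K L (y i)) ^ m * g) ↔
        Ge P (m * cK y (bel K P)) g) := by
    intro P hP g
    obtain ⟨v, hv, hvd⟩ := hu.over hP
    obtain ⟨z, F, i0, hl, hc⟩ := cK_spec y (exists_lo (by exact_mod_cast hK) hvd)
    obtain ⟨F', hl', hF'⟩ := lift_frame hv hl hK
    rw [regAt_iff hl' hE', bel_eq hv, hc]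
    have h1 : jd F' (fun i => algebraMap K L (y i)) = algebraMap K L (jd F y) := by
      unfold jd
      rw [RingHom.map_det]
      congr 1
      ext i j
      exact hF' i (y j)
    rw [h1, hv.2, Nat.cast_one, one_mul]
  constructor
  · intro hg
    refine ⟨fun D => jd D (fun i => algebraMap K L (y i)) ^ m * g, ⟨pluri_jd _ m g,
      fun P hP => (key P hP g).2 (hg P hP)⟩, ?_⟩
    simp only
    rw [jd_dual hE', one_pow, one_mul]
  · rintro ⟨ω, hω, rfl⟩ P hP
    have h1 := hω.2 P hP
    rw [form_eq hyL hE' hω.1] at h1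
    exact (key P hP _).1 h1

/-- pull-back of sections -/
theorem pull_V (hu : Unr K L) {c : Place ℂ K → ℤ} {m : ℕ} {g : K} (hg : g ∈ V (pdv K) c m) :
    algebraMap K L g ∈ V (pdv L) (fun P => c (bel K P)) m := by
  intro P hP
  obtain ⟨v, hv, hvd⟩ := hu.over hP
  have h1 := ov_ge hv (hg v hvd)
  simp only
  rw [bel_eq hv]
  exact h1.mono (by simp)

/-- sections are preserved by automorphisms -/
theorem conj_V {c : Place ℂ K → ℤ} {m : ℕ} {g : L} (σ : L ≃ₐ[K] L)
    (hg : g ∈ V (pdv L) (fun P => c (bel K P)) m) :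
    σ g ∈ V (pdv L) (fun P => c (bel K P)) m := by
  intro P hP
  have hP' : P.comp (σ.restrictScalars ℂ) ∈ pdv L := by
    obtain ⟨u, hu⟩ := hP
    refine ⟨fun i => σ.symm (u i), fun G hG => ?_⟩
    obtain ⟨h1, h2⟩ := hu G hG
    have h3 : MvPolynomial.aeval u G =
        (σ.restrictScalars ℂ) (MvPolynomial.aeval (fun i => σ.symm (u i)) G) := by
      have h4 := MvPolynomial.comp_aeval_apply (f := fun i => σ.symm (u i))
        ((σ.restrictScalars ℂ : L ≃ₐ[ℂ] L) : L →ₐ[ℂ] L) G
      have h5 : (fun i => ((σ.restrictScalars ℂ : L ≃ₐ[ℂ] L) : L →ₐ[ℂ] L) (σ.symm (u i))) = u := by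
        funext i
        exact σ.apply_symm_apply (u i)
      rw [h5] at h4
      exact h4.symm
    refine ⟨fun h0 => h1 (by rw [h3, h0, map_zero]), ?_⟩
    rw [Place.comp_ord, ← h3, h2]
  have h1 := hg _ hP'
  obtain ⟨v, e, hv⟩ := exists_below (K := K) P
  have hv' : Over (P.comp (σ.restrictScalars ℂ)) v e := by
    refine ⟨hv.1, fun f => ?_⟩
    rw [Place.comp_ord]
    change P.ord (σ (algebraMap K L f)) = _
    rw [AlgEquiv.commutes, hv.2]
  simp only at h1 ⊢
  rw [bel_eq hv'] at h1
  rw [bel_eq hv]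
  rcases h1 with h1 | h1
  · left
    rw [h1, map_zero]
  · right
    exact h1

end

end Run7.h612.SP
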