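import Pool.Agent.Helper700.Up2
import Pool.Agent.W381.PG.GAUSS

/-!
Divisorial places over the places of a pencil with small ramification.
-/

set_option autoImplicit false
set_option linter.unusedSectionVars false
set_option linter.overlappingInstances false

open FF Pool.Agent.W603.LV Pool.Agent.W602.GT IntermediateField Module

namespace Run7.h612.SP

/-- the generator of a simple extension generates it -/
theorem gen_top {k K : Type} [Field k] [Field K] [Algebra k K] (t : K) :
    k⟮(⟨t, mem_adjoin_simple_self k t⟩ : k⟮t⟯)⟯ = ⊤ := by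
  apply IntermediateField.lift_injective
  rw [IntermediateField.lift_adjoin_simple, IntermediateField.lift_top]

theorem gen_transcendental {k K : Type} [Field k] [Field K] [Algebra k K] {t : K}
    (ht : Transcendental k t) : Transcendental k (⟨t, mem_adjoin_simple_self k t⟩ : k⟮t⟯) := by
  intro h
  exact ht (by simpa using h.algebraMap (A := K))

theorem isFF_simple {k K : Type} [Field k] [Field K] [Algebra k K] {t : K}
    (ht : Transcendental k t) : IsFF k k⟮t⟯ := by
  refine IsFF.of_finite (gen_transcendental ht) ?_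
  rw [gen_top]
  exact FiniteDimensional.of_finrank_pos (by rw [IntermediateField.finrank_top]; exact one_pos)

/-- ramification indices are bounded by the degree -/
theorem over_le {K L : Type} [Field K] [Field L] [Algebra ℂ K] [Algebra ℂ L] [Algebra K L]
    [IsScalarTower ℂ K L] [FiniteDimensional K L] {v : Place ℂ K} {w : Place ℂ L} {e : ℕ}
    (h : Over w v e) : e ≤ finrank K L := by
  obtain ⟨S, T, h1, h2, h3⟩ := exists_places_over (K' := L) v
  have hw := h1 w e h
  obtain ⟨e', h', h4, h5⟩ := h2 w hw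
  have he := Over.unique h h'
  subst he
  rw [← h3]
  refine le_trans ?_ (Finset.single_le_sum (f := T) (fun _ _ => Nat.zero_le _) hw)
  rw [h4] at h5 ⊢
  exact Nat.le_mul_of_pos_right _ (Nat.pos_of_mul_pos_left h5)

/-- transport of a place -/
def trans {K L : Type} [Field K] [Field L] [Algebra ℂ K] [Algebra ℂ L] (s : K ≃ₐ[ℂ] L)
    (p : Place ℂ L) : Place ℂ K where
  ord f := p.ord (s f)
  ord_zero := by rw [map_zero, p.ord_zero]
  ord_mul := by
    intro f g hf hg
    rw [map_mul, p.ord_mul (by simpa using hf) (by simpa using hg)]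
  ord_add := by
    intro f g hf hg hfg
    rw [map_add]
    exact p.ord_add (by simpa using hf) (by simpa using hg)
      (by rw [← map_add]; exact (map_ne_zero_iff _ s.injective).2 hfg)
  ord_const := by intro c hc; rw [AlgEquiv.commutes, p.ord_const hc]
  surj := by
    obtain ⟨t, h0, ht⟩ := p.surj
    exact ⟨s.symm t, by simpa using h0, by simpa using ht⟩

/-- **A divisorial place over a place of a pencil with small ramification.** -/
theorem exists_place {K : Type} [Field K] [Algebra ℂ K] (E0 : IntermediateField ℂ K)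
    (hE0 : Algebra.trdeg ℂ E0 = 1) (hK : Algebra.trdeg ℂ K = 2) {y : K}
    (hy : Transcendental E0 y) {M : ℕ}
    (hM : ∀ (r : ℕ) (b : Fin r → K), LinearIndependent E0⟮y⟯ b → r ≤ M) (p : Place ℂ E0) :
    ∃ (w : Place ℂ K) (e : ℕ), e ≤ M ∧ Divisorial 2 w ∧ 0 < e ∧
      ∀ f : E0, w.ord (f : K) = e * p.ord f := by
  classical
  let N : IntermediateField ℂ K := (E0⟮y⟯).restrictScalars ℂ
  have hle : E0 ≤ N := fun z hz => (E0⟮y⟯).algebraMap_mem ⟨z, hz⟩
  have hyN : y ∈ N := mem_adjoin_simple_self E0 y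
  have hrk : Module.rank N K ≤ M := by
    refine rank_le fun s hs => ?_
    have e := s.equivFin.symm
    exact hM s.card (fun i => (e i : K)) (hs.comp e e.injective)
  have hfin : FiniteDimensional N K :=
    Module.rank_lt_aleph0_iff.1 (hrk.trans_lt Cardinal.natCast_lt_aleph0)
  have hfr : finrank N K ≤ M := Module.finrank_le_of_rank_le hrk
  let M1 : IntermediateField ℂ N := IntermediateField.restrict hle
  let y' : N := ⟨y, hyN⟩
  have hy0 : Transcendental ℂ y := fun h => hy (h.tower_top E0)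
  have hy' : Transcendental ℂ y' := fun h => hy0 (by simpa using h.algebraMap (A := K))
  have hF1 : IsFF ℂ ℂ⟮y'⟯ := isFF_simple hy'
  have hM1 : ∀ z (hz : z ∈ E0), (⟨z, hle hz⟩ : N) ∈ M1 := fun z hz =>
    (IntermediateField.mem_restrict hle _).2 hz
  have hsup : M1 ⊔ ℂ⟮y'⟯ = ⊤ := by
    have h1 : E0 ≤ IntermediateField.lift (M1 ⊔ ℂ⟮y'⟯) := fun z hz =>
      ⟨⟨z, hle hz⟩, (le_sup_left : M1 ≤ M1 ⊔ ℂ⟮y'⟯) (hM1 z hz), rfl⟩
    have h2 : E0⟮y⟯ ≤ extendScalars h1 := by
      rw [adjoin_simple_le_iff]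
      exact ⟨y', (le_sup_right : ℂ⟮y'⟯ ≤ M1 ⊔ ℂ⟮y'⟯) (mem_adjoin_simple_self ℂ y'), rfl⟩
    rw [eq_top_iff]
    rintro ⟨z, hz⟩ -
    obtain ⟨z', hz', h3⟩ := h2 hz
    have h4 : z' = ⟨z, hz⟩ := Subtype.ext h3
    rwa [← h4]
  let s : E0 ≃ₐ[ℂ] M1 := IntermediateField.restrictAlgEquiv hle
  have hd : Algebra.trdeg ℂ M1 = (1 : ℕ) := by
    rw [← s.trdeg_eq, hE0, Nat.cast_one]
  have hN : Algebra.trdeg ℂ N = (1 + 1 : ℕ) := by
    have h1 := _root_.trdeg_add_eq ℂ N (A := K)
    have h2 : Algebra.trdeg N K = 0 := by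
      rw [_root_.trdeg_eq_zero_iff]
      exact Algebra.IsAlgebraic.of_finite N K
    rw [h2, add_zero] at h1
    rw [h1, hK]
    norm_num
  obtain ⟨U, hU1, hU2, -⟩ := Pool.Agent.W381.PG.main.{0, 0} ℂ N M1 ℂ⟮y'⟯ 1 hd hN hsup
    (trans s.symm p)
  obtain ⟨w, e, hw⟩ := Pool.Agent.Helper700.exists_above (L := K) U
  have hyw : ∀ G : Polynomial ℂ, G ≠ 0 → Polynomial.aeval y G ≠ 0 ∧
      w.ord (Polynomial.aeval y G) = 0 := by
    intro G hG
    have h1 : Polynomial.aeval y G ≠ 0 := fun h => hy0 ⟨G, hG, h⟩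
    refine ⟨h1, ?_⟩
    have h2 : Polynomial.aeval y' G ∈ ℂ⟮y'⟯ := by
      have h3 : Polynomial.aeval y' G ∈ Algebra.adjoin ℂ {y'} := by
        rw [Algebra.adjoin_singleton_eq_range_aeval]
        exact ⟨G, rfl⟩
      exact algebra_adjoin_le_adjoin ℂ _ h3
    have h3 := hU2 ⟨_, h2⟩
    have h4 : algebraMap N K (Polynomial.aeval y' G) = Polynomial.aeval y G := by
      rw [← Polynomial.aeval_algebraMap_apply]
      rfl
    rw [← h4, hw.2, h3, mul_zero]
  refine ⟨w, e, (over_le hw).trans hfr, ⟨fun _ => y, fun G hG => ?_⟩, hw.1, fun f => ?_⟩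
  · have h1 : (MvPolynomial.aeval (fun _ : Fin 1 => y) : MvPolynomial (Fin 1) ℂ →ₐ[ℂ] K) =
        (Polynomial.aeval y).comp (MvPolynomial.uniqueAlgEquiv ℂ (Fin 1)).toAlgHom := by
      apply MvPolynomial.algHom_ext
      intro i
      simp
    have h2 : MvPolynomial.aeval (fun _ : Fin (2 - 1) => y) G =
        Polynomial.aeval y (MvPolynomial.uniqueAlgEquiv ℂ (Fin 1) G) := DFunLike.congr_fun h1 G
    rw [h2]
    exact hyw _ (by rwa [Ne, EmbeddingLike.map_eq_zero_iff])
  · have h1 := hU1 (s f)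
    have h2 : ((s f : N) : K) = f := rfl
    rw [← h2]
    change w.ord (algebraMap N K (s f : N)) = _
    rw [hw.2, h1]
    congr 1
    change p.ord (s.symm (s f)) = _
    rw [AlgEquiv.symm_apply_apply]

end Run7.h612.SP
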