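import Pool.Agent.TH143.GE.Form
import Pool.Agent.N87.FV.RC
import Pool.Agent.W603.PV.Disc
import Pool.Agent.Y221.AH.Sum
import Pool.Agent.Helper386.D5V.Helper399_OverDefs

/-!
Finite groups acting on the projective line with bounded ramification.
-/

set_option autoImplicit false
set_option linter.unusedSectionVars false
set_option linter.overlappingInstances false

open FF Pool.Agent.W603.LV Pool.Agent.W603.PV Pool.Agent.N87.FV IntermediateField Module

namespace Run7.h612.SP

theorem three {x y z M : ℕ} (hx : 2 ≤ x) (hxy : x ≤ y) (hyz : y ≤ z) (hz : z ≤ M)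
    (h : (0 : ℚ) < 1 / x + 1 / y + 1 / z - 1) :
    (1 : ℚ) / (6 * M) ≤ 1 / x + 1 / y + 1 / z - 1 := by
  have hz0 : (2 : ℚ) ≤ z := by exact_mod_cast hx.trans (hxy.trans hyz)
  have hM : (z : ℚ) ≤ M := by exact_mod_cast hz
  have hinv : ∀ {a b : ℕ}, 0 < a → a ≤ b → (1 : ℚ) / b ≤ 1 / a := fun ha hab =>
    one_div_le_one_div_of_le (by exact_mod_cast ha) (by exact_mod_cast hab)
  have hx2 : x = 2 := by
    by_contra hne
    have h1 := hinv (a := 3) (b := x) (by norm_num) (by omega)
    have h2 := hinv (a := 3) (b := y) (by norm_num) (by omega)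
    have h3 := hinv (a := 3) (b := z) (by norm_num) (by omega)
    push_cast at h1 h2 h3
    linarith
  subst hx2
  have hy3 : y ≤ 3 := by
    by_contra hne
    have h2 := hinv (a := 4) (b := y) (by norm_num) (by omega)
    have h3 := hinv (a := 4) (b := z) (by norm_num) (by omega)
    push_cast at h h2 h3
    linarith
  have hMz : (1 : ℚ) / (6 * M) ≤ 1 / (6 * z) :=
    one_div_le_one_div_of_le (by linarith) (by linarith)
  refine hMz.trans ?_
  interval_cases y
  · have h1 : (1 : ℚ) / (6 * z) ≤ 1 / z :=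
      one_div_le_one_div_of_le (by linarith) (by linarith)
    push_cast
    linarith
  · have hz5 : z ≤ 5 := by
      by_contra hne
      have h3 := hinv (a := 6) (b := z) (by norm_num) (by omega)
      push_cast at h h3
      linarith
    interval_cases z <;> norm_num

/-- the orders of the finite groups acting on the line -/
theorem numeric {ι : Type} [DecidableEq ι] (R : Finset ι) (e : ι → ℕ) {M n : ℕ}
    (he : ∀ v ∈ R, 2 ≤ e v ∧ e v ≤ M) (hn : 1 ≤ n) (hM : 1 ≤ M)
    (h : ∑ v ∈ R, (1 - 1 / (e v : ℚ)) = 2 - 2 / n) : n ≤ 12 * M := by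
  have hn0 : (1 : ℚ) ≤ n := by exact_mod_cast hn
  have hM0 : (1 : ℚ) ≤ M := by exact_mod_cast hM
  have hn2 : (0 : ℚ) < 2 / n := by positivity
  have h1 : (R.card : ℚ) * (1 / 2) ≤ ∑ v ∈ R, (1 - 1 / (e v : ℚ)) := by
    rw [← nsmul_eq_mul]
    refine Finset.card_nsmul_le_sum _ _ _ fun v hv => ?_
    have h2 : (1 : ℚ) / e v ≤ 1 / 2 :=
      one_div_le_one_div_of_le (by norm_num) (by exact_mod_cast (he v hv).1)
    linarith
  have h2 : R.card ≤ 3 := by
    have h3 : (R.card : ℚ) < 4 := by
      rw [h] at h1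
      linarith
    have h4 : R.card < 4 := by exact_mod_cast h3
    omega
  have fin : ∀ {k : ℚ}, 0 < k → k ≤ 12 → (1 : ℚ) / (k / 2 * M) ≤ 2 / n → n ≤ 12 * M := by
    intro k hk hk12 hle
    rw [div_le_div_iff₀ (by positivity) (by positivity)] at hle
    have h3 : (n : ℚ) ≤ 12 * M := by nlinarith
    exact_mod_cast h3
  interval_cases hc : R.card
  · rw [Finset.card_eq_zero] at hc
    subst hc
    rw [Finset.sum_empty] at h
    have h3 : (2 : ℚ) / n = 2 := by linarith
    exact fin (k := 1) (by norm_num) (by norm_num) (by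
      rw [h3, div_le_iff₀ (by positivity)]
      linarith)
  · obtain ⟨a, rfl⟩ := Finset.card_eq_one.1 hc
    rw [Finset.sum_singleton] at h
    have h4 : (0 : ℚ) < 1 / e a := by
      have := (he a (Finset.mem_singleton_self a)).1
      have : (0 : ℚ) < e a := by exact_mod_cast (by omega : 0 < e a)
      positivity
    exact fin (k := 2) (by norm_num) (by norm_num) (by
      have h3 : (1 : ℚ) ≤ 2 / n := by linarith
      refine le_trans ?_ h3
      rw [div_le_iff₀ (by positivity)]
      linarith)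
  · obtain ⟨a, b, hab, rfl⟩ := Finset.card_eq_two.1 hc
    rw [Finset.sum_pair hab] at h
    have ha := he a (by simp)
    have hb := he b (by simp)
    have h3 : (1 : ℚ) / M ≤ 1 / e a := one_div_le_one_div_of_le
      (by exact_mod_cast (by omega : 0 < e a)) (by exact_mod_cast ha.2)
    have h4 : (1 : ℚ) / M ≤ 1 / e b := one_div_le_one_div_of_le
      (by exact_mod_cast (by omega : 0 < e b)) (by exact_mod_cast hb.2)
    refine fin (k := 2) (by norm_num) (by norm_num) ?_
    have h5 : (1 : ℚ) / (2 / 2 * M) = 1 / M := by norm_num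
    rw [h5]
    have h6 : (0 : ℚ) < 1 / M := by positivity
    linarith
  · obtain ⟨a, b, c, hab, hac, hbc, rfl⟩ := Finset.card_eq_three.1 hc
    rw [Finset.sum_insert (by simp [hab, hac]), Finset.sum_pair hbc] at h
    have ha := he a (by simp)
    have hb := he b (by simp)
    have hc := he c (by simp)
    have h3 : (0 : ℚ) < 1 / e a + 1 / e b + 1 / e c - 1 := by linarith
    have h4 : (1 : ℚ) / (6 * M) ≤ 1 / e a + 1 / e b + 1 / e c - 1 := by
      rcases le_total (e a) (e b) with h5 | h5 <;> rcases le_total (e b) (e c) with h6 | h6 <;>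
        rcases le_total (e a) (e c) with h7 | h7
      · exact three ha.1 h5 h6 hc.2 h3
      · exact three ha.1 h5 h6 hc.2 h3
      · have := three ha.1 h7 h6 hb.2 (by linarith)
        linarith
      · have := three hc.1 h7 h5 hb.2 (by linarith)
        linarith
      · have := three hb.1 h5 h7 hc.2 (by linarith)
        linarith
      · have := three hb.1 h6 h7 ha.2 (by linarith)
        linarith
      · have := three hc.1 h6 h5 ha.2 (by linarith)
        linarith
      · have := three hc.1 h6 h5 ha.2 (by linarith)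
        linarith
    refine fin (k := 12) (by norm_num) (by norm_num) ?_
    have h5 : (1 : ℚ) / (12 / 2 * M) = 1 / (6 * M) := by norm_num
    rw [h5]
    linarith

section rh

variable {F : Type} [Field F] [Algebra ℂ F] [IsFF ℂ F] {E : Type} [Field E] [Algebra ℂ E]
  [IsFF ℂ E] [Algebra F E] [IsScalarTower ℂ F E] [FiniteDimensional F E]

/-- Riemann-Hurwitz, over a finite set of places which contains all ramified ones -/
theorem rh (S : Place ℂ F → Finset (Place ℂ E)) (hS : ∀ v w, w ∈ S v ↔ under F w = v)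
    (hsum : ∀ v, ∑ w ∈ S v, (ram F w : ℤ) = finrank F E) (V0 : Finset (Place ℂ F)) :
    ∃ V : Finset (Place ℂ F), V0 ⊆ V ∧
      canDeg ℂ E = ∑ v ∈ V, ∑ w ∈ S v, ((ram F w : ℤ) - 1) + finrank F E * canDeg ℂ F := by
  classical
  have hF : CharZero F := charZero_of_injective_algebraMap (algebraMap ℂ F).injective
  obtain ⟨D, hD⟩ := exists_der (k := ℂ) (K := F)
  obtain ⟨D', hDD'⟩ := exists_ext_der (L := E) D
  have hD' : D' ≠ 0 := by
    rintro rfl
    apply hD
    ext x
    have := hDD' x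
    rw [Derivation.coe_zero, Pi.zero_apply, eq_comm, map_eq_zero] at this
    rw [this]; rfl
  obtain ⟨V, hV⟩ : ∃ V : Finset (Place ℂ F), V = V0 ∪ (vo_finite hD).toFinset ∪
    (vo_finite hD').toFinset.image (under F) := ⟨_, rfl⟩
  have h0 : ∀ P : Place ℂ E, under F P ∈ V → P ∈ V.biUnion S := fun P hP =>
    Finset.mem_biUnion.2 ⟨_, hP, (hS _ P).2 rfl⟩
  have h1 := canDeg_finset hD' (V.biUnion S) fun P hP => h0 P (by
    rw [hV, Finset.mem_union]
    exact Or.inr (Finset.mem_image_of_mem _ ((vo_finite hD').mem_toFinset.2 hP)))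
  have h2 := canDeg_finset hD V fun v hv => by
    rw [hV, Finset.mem_union, Finset.mem_union]
    exact Or.inl (Or.inr ((vo_finite hD).mem_toFinset.2 hv))
  refine ⟨V, ?_, ?_⟩
  · rw [hV]
    exact Finset.subset_union_left.trans Finset.subset_union_left
  rw [Finset.sum_biUnion (fun v _ v' _ hvv' => Finset.disjoint_left.2 fun w hw hw' =>
    hvv' (((hS v w).1 hw).symm.trans ((hS v' w).1 hw')))] at h1
  have h3 : ∀ v, ∑ w ∈ S v, vo w D' = finrank F E * vo v D - ∑ w ∈ S v, ((ram F w : ℤ) - 1) := by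
    intro v
    rw [← hsum v, Finset.sum_mul, ← Finset.sum_sub_distrib]
    refine Finset.sum_congr rfl fun w hw => ?_
    rw [vo_under hD hD' hDD' w, (hS v w).1 hw]
  rw [Finset.sum_congr rfl fun v _ => h3 v, Finset.sum_sub_distrib, ← Finset.mul_sum, h2] at h1
  linarith

theorem ord_comp (P : Place ℂ E) (σ : E ≃ₐ[F] E) (f : E) :
    (P.comp (σ.restrictScalars ℂ)).ord f = P.ord (σ f) := rfl

theorem ram_comp (P : Place ℂ E) (σ : E ≃ₐ[F] E) :
    ram F (P.comp (σ.restrictScalars ℂ)) = ram F P := by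
  unfold ram
  simp only [ord_comp, AlgEquiv.commutes]

/-- a function on the line with the only zero `P`, and without poles in a finite set -/
theorem exists_fun {x : E} (hx : ℂ⟮x⟯ = ⊤) (P : Place ℂ E) (A : Finset (Place ℂ E)) :
    ∃ f : E, f ≠ 0 ∧ 0 < P.ord f ∧ (∀ Q, 0 < Q.ord f → Q = P) ∧ ∀ Q ∈ A, 0 ≤ Q.ord f := by
  classical
  -- a generator with the zero `P`
  obtain ⟨z, hz, hzP⟩ : ∃ z : E, ℂ⟮z⟯ = ⊤ ∧ 0 < P.ord z := by
    by_cases h : P.ord x < 0
    · refine ⟨x⁻¹, by rw [adjoin_inv, hx], ?_⟩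
      rw [P.ord_inv]
      omega
    · push Not at h
      obtain ⟨a, ha⟩ := exists_const P (f := x) (Or.inr h)
      refine ⟨x - algebraMap ℂ E a, top_sub hx a, ?_⟩
      have h0 : x - algebraMap ℂ E a ≠ 0 := by
        intro h
        apply transcendental_of_top hx
        rw [sub_eq_zero] at h
        rw [h]
        exact isAlgebraic_algebraMap a
      have := ha.resolve_left h0
      omega
  have hzt := transcendental_of_top hz
  obtain ⟨P', hP', hP''⟩ := zero_unique hz
  have hPP : P = P' := hP'' P hzP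
  -- a value `b` which is not taken in `A`
  have h1 : ∀ Q : Place ℂ E, ∃ c : ℂ, ∀ b, b ≠ c → ¬ 0 < Q.ord (z - algebraMap ℂ E b) := by
    intro Q
    by_cases h : ∃ c, 0 < Q.ord (z - algebraMap ℂ E c)
    · obtain ⟨c, hc⟩ := h
      refine ⟨c, fun b hb hb' => ?_⟩
      have h2 : Ge Q 1 ((z - algebraMap ℂ E c) - (z - algebraMap ℂ E b)) :=
        Ge.sub (Or.inr hc) (Or.inr hb')
      have h3 : (z - algebraMap ℂ E c) - (z - algebraMap ℂ E b) = algebraMap ℂ E (b - c) := by
        rw [map_sub]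
        ring
      rw [h3] at h2
      rcases h2 with h2 | h2
      · rw [map_eq_zero, sub_eq_zero] at h2
        exact hb h2
      · rw [Q.ord_const (sub_ne_zero.2 hb)] at h2
        omega
    · push Not at h
      exact ⟨0, fun b _ hb => absurd (h b) (by omega)⟩
  choose c hc using h1
  obtain ⟨b, hb⟩ := Infinite.exists_notMem_finset (insert 0 (A.image c))
  rw [Finset.mem_insert, not_or] at hb
  have hb0 : b ≠ 0 := hb.1
  have hne : ∀ a, z - algebraMap ℂ E a ≠ 0 := by
    intro a h
    apply hzt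
    rw [sub_eq_zero] at h
    rw [h]
    exact isAlgebraic_algebraMap a
  have hz0 : z ≠ 0 := by
    have := hne 0
    rwa [map_zero, sub_zero] at this
  have hcb : algebraMap ℂ E b ≠ 0 := by rwa [Ne, map_eq_zero]
  -- orders
  have h2 : ∀ Q : Place ℂ E, Q.ord z < 0 → Q.ord (z - algebraMap ℂ E b) = Q.ord z := by
    intro Q hQ
    have := (Q.ord_add_eq hz0 (neg_ne_zero.2 hcb) (by rw [Q.ord_neg, Q.ord_const hb0]; exact hQ)).2
    rwa [← sub_eq_add_neg] at this
  have h3 : ∀ Q : Place ℂ E, 0 < Q.ord z → Q.ord (z - algebraMap ℂ E b) = 0 := by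
    intro Q hQ
    have := (Q.ord_add_eq (neg_ne_zero.2 hcb) hz0 (by rw [Q.ord_neg, Q.ord_const hb0]; exact hQ)).2
    rw [Q.ord_neg, Q.ord_const hb0, neg_add_eq_sub] at this
    exact this
  have h4 : ∀ Q : Place ℂ E, 0 ≤ Q.ord z → 0 ≤ Q.ord (z - algebraMap ℂ E b) := by
    intro Q hQ
    exact (Ge.sub (P := Q) (N := 0) (Or.inr hQ) (Ge.const b)).resolve_left (hne b)
  refine ⟨z / (z - algebraMap ℂ E b), div_ne_zero hz0 (hne b), ?_, fun Q hQ => ?_, fun Q hQ => ?_⟩
  · rw [P.ord_div hz0 (hne b), h3 P hzP]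
    omega
  · rw [Q.ord_div hz0 (hne b)] at hQ
    rcases lt_trichotomy (Q.ord z) 0 with h | h | h
    · rw [h2 Q h] at hQ
      omega
    · have := h4 Q h.ge
      omega
    · rw [hPP]
      exact hP'' Q h
  · rw [Q.ord_div hz0 (hne b)]
    have hQc : b ≠ c Q := by
      rintro rfl
      exact hb.2 (Finset.mem_image_of_mem _ hQ)
    rcases lt_trichotomy (Q.ord z) 0 with h | h | h
    · rw [h2 Q h]
      omega
    · have := hc Q b hQc
      omega
    · rw [h3 Q h]
      omega

/-- the Galois group permutes the places over a place transitively -/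
theorem exists_conj [IsGalois F E] {x : E} (hx : ℂ⟮x⟯ = ⊤) (P Q : Place ℂ E)
    (h : under F P = under F Q) : ∃ σ : E ≃ₐ[F] E, P.comp (σ.restrictScalars ℂ) = Q := by
  classical
  by_contra hcon
  push Not at hcon
  obtain ⟨f, hf0, hfQ, hfz, hfp⟩ := exists_fun hx Q
    (Finset.univ.image fun σ : E ≃ₐ[F] E => Q.comp (σ.restrictScalars ℂ))
  have h1 := Algebra.norm_eq_prod_automorphisms F f
  have hprod : ∀ (R : Place ℂ E) (s : Finset (E ≃ₐ[F] E)),
      R.ord (∏ σ ∈ s, σ f) = ∑ σ ∈ s, R.ord (σ f) := by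
    intro R s
    induction s using Finset.induction_on with
    | empty => simp [R.ord_one]
    | insert σ s hσ ih =>
      rw [Finset.prod_insert hσ, Finset.sum_insert hσ, R.ord_mul (by simpa using hf0)
        (Finset.prod_ne_zero_iff.2 fun τ _ => by simpa using hf0), ih]
  have h2 : Q.ord (algebraMap F E (Algebra.norm F f)) > 0 := by
    rw [h1, hprod]
    refine Finset.sum_pos' (fun σ _ => ?_) ⟨1, Finset.mem_univ _, hfQ⟩
    exact hfp _ (Finset.mem_image_of_mem _ (Finset.mem_univ σ))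
  have h3 : P.ord (algebraMap F E (Algebra.norm F f)) ≤ 0 := by
    rw [h1, hprod]
    refine Finset.sum_nonpos fun σ _ => ?_
    by_contra hc
    push Not at hc
    exact hcon σ (hfz _ hc)
  rw [ord_under, gt_iff_lt, ← h] at h2
  rw [ord_under] at h3
  have h4 : (0 : ℤ) < ram F P := by exact_mod_cast (ram_spec (F := F) P).1
  have h5 : (0 : ℤ) < ram F Q := by exact_mod_cast (ram_spec (F := F) Q).1
  have h6 := (mul_pos_iff_of_pos_left h5).1 h2
  nlinarith

/-- **Finite groups acting on the line with bounded ramification are bounded.** -/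
theorem rh_bound [IsGalois F E] {x : E} (hx : ℂ⟮x⟯ = ⊤) {M : ℕ}
    (hM : ∀ p : Place ℂ F, ∃ P : Place ℂ E, under F P = p ∧ ram F P ≤ M) :
    finrank F E ≤ 12 * M := by
  classical
  choose S hS hsum using fun v : Place ℂ F => Pool.Agent.Y221.AH.sum_ram (L := E) v
  choose Q hQ hQM using hM
  have hram : ∀ v, ∀ w ∈ S v, ram F w = ram F (Q v) := by
    intro v w hw
    obtain ⟨σ, hσ⟩ := exists_conj hx w (Q v) (by rw [(hS v w).1 hw, hQ])
    rw [← hσ, ram_comp]
  obtain ⟨V, -, h1⟩ := rh (F := F) (E := E) S hS hsum ∅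
  have hn : 0 < finrank F E := Module.finrank_pos
  have hpos : ∀ w : Place ℂ E, 1 ≤ (ram F w : ℤ) := fun w => by
    exact_mod_cast (ram_spec (F := F) w).1
  have h2 : 0 ≤ ∑ v ∈ V, ∑ w ∈ S v, ((ram F w : ℤ) - 1) :=
    Finset.sum_nonneg fun v _ => Finset.sum_nonneg fun w _ => by linarith [hpos w]
  have h3 : canDeg ℂ E = -2 := canDeg_rational hx
  have h4 : canDeg ℂ F = -2 := by
    have h5 : canDeg ℂ F < 0 := by
      by_contra hcon
      push Not at hcon
      have : (0 : ℤ) ≤ finrank F E * canDeg ℂ F := by positivity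
      omega
    obtain ⟨t, ht⟩ := Pool.Agent.TH143.GE.rational_of_neg h5
    exact canDeg_rational ht
  rw [h3, h4] at h1
  have h5 : ∀ v, ((∑ w ∈ S v, ((ram F w : ℤ) - 1) : ℤ) : ℚ) =
      finrank F E * (1 - 1 / (ram F (Q v) : ℚ)) := by
    intro v
    have h6 : (∑ w ∈ S v, ((ram F w : ℤ) - 1) : ℤ) = (S v).card * ((ram F (Q v) : ℤ) - 1) := by
      rw [Finset.sum_congr rfl fun w hw => by rw [hram v w hw], Finset.sum_const, nsmul_eq_mul]
    have h7 : (finrank F E : ℤ) = (S v).card * (ram F (Q v) : ℤ) := by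
      rw [← hsum v, Finset.sum_congr rfl fun w hw => by rw [hram v w hw], Finset.sum_const,
        nsmul_eq_mul]
    have h8 : (finrank F E : ℚ) = (S v).card * (ram F (Q v) : ℚ) := by exact_mod_cast h7
    have h9 : (ram F (Q v) : ℚ) ≠ 0 := by
      have := (ram_spec (F := F) (Q v)).1
      exact_mod_cast this.ne'
    have h10 : (ram F (Q v) : ℚ) * (1 - 1 / (ram F (Q v) : ℚ)) = ram F (Q v) - 1 := by
      rw [mul_sub, mul_one_div_cancel h9, mul_one]
    rw [h6, h8, mul_assoc, h10]
    push_cast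
    ring
  have h6 : ∑ v ∈ V, (1 - 1 / (ram F (Q v) : ℚ)) = 2 - 2 / (finrank F E : ℚ) := by
    have h7 : (finrank F E : ℚ) * ∑ v ∈ V, (1 - 1 / (ram F (Q v) : ℚ)) = 2 * finrank F E - 2 := by
      rw [Finset.mul_sum, ← Finset.sum_congr rfl fun v _ => h5 v]
      have h8 : ∑ v ∈ V, ∑ w ∈ S v, ((ram F w : ℤ) - 1) = 2 * finrank F E - 2 := by linarith
      rw [← Int.cast_sum, h8]
      push_cast
      ring
    have h8 : (finrank F E : ℚ) ≠ 0 := by exact_mod_cast hn.ne'
    field_simp
    linarith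
  obtain ⟨v0⟩ : Nonempty (Place ℂ F) := by
    obtain ⟨P, -⟩ := FF.exists_place (k := ℂ) (K := F)
    exact ⟨P⟩
  refine numeric (V.filter fun v => 2 ≤ ram F (Q v)) (fun v => ram F (Q v)) (fun v hv =>
    ⟨(Finset.mem_filter.1 hv).2, hQM v⟩) hn (Nat.succ_le_of_lt ((ram_spec (F := F) (Q v0)).1.trans_le (hQM v0))) ?_
  rw [← h6]
  refine Finset.sum_subset (Finset.filter_subset _ _) fun v hv hv' => ?_
  have h7 : ram F (Q v) = 1 := by
    have h8 := (ram_spec (F := F) (Q v)).1
    by_contra hne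
    exact hv' (Finset.mem_filter.2 ⟨hv, by omega⟩)
  rw [h7]
  norm_num

end rh

end Run7.h612.SP
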