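import Pool.Agent.Run7.h612.SP.Fm
import Pool.Agent.Run7.h612.SP.Rh
import Pool.Agent.Run7.h612.SP.Pl

/-!
The Galois group of an etale cover with a pencil.
-/

set_option autoImplicit false
set_option linter.unusedSectionVars false
set_option linter.overlappingInstances false

open FF Pool.Agent.W603.LV Pool.Agent.W602.GT Pool.Agent.W603.PV Pool.Agent.Helper700 Module
  IntermediateField

namespace Run7.h612.SP

theorem RankLe.conj {L : Type} [Field L] [Algebra ℂ L] {pd : Set (Place ℂ L)}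
    {c : Place ℂ L → ℤ} {t : L} {C C' : ℕ} (h : RankLe pd c ℂ⟮t⟯ C C') (σ : L ≃ₐ[ℂ] L)
    (hσ : ∀ m g, g ∈ V pd c m → σ.symm g ∈ V pd c m) : RankLe pd c ℂ⟮σ t⟯ C C' := by
  intro m hm s v hv hi
  refine h m hm s (fun i => σ.symm (v i)) (fun i => hσ m _ (hv i)) ?_
  rw [Fintype.linearIndependent_iff] at hi ⊢
  intro g hg i
  have hle : ℂ⟮t⟯ ≤ (ℂ⟮σ t⟯).comap (σ : L →ₐ[ℂ] L) :=
    adjoin_simple_le_iff.2 (mem_adjoin_simple_self ℂ (σ t))
  have hmem : ∀ z : ℂ⟮t⟯, σ z ∈ ℂ⟮σ t⟯ := fun z => hle z.2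
  have h1 := hi (fun i => ⟨σ (g i), hmem _⟩) (by
    have h2 := congrArg σ hg
    rw [map_sum, map_zero] at h2
    rw [← h2]
    refine Finset.sum_congr rfl fun j _ => ?_
    rw [Algebra.smul_def, Algebra.smul_def, map_mul, AlgEquiv.apply_symm_apply]
    rfl) i
  have h2 : σ (g i : L) = 0 := congrArg Subtype.val h1
  rw [map_eq_zero_iff _ σ.injective] at h2
  exact Subtype.ext h2

section

variable {K L : Type} [Field K] [Field L] [Algebra ℂ K] [Algebra ℂ L] [Algebra K L]
  [IsScalarTower ℂ K L] [FiniteDimensional K L] [Algebra.EssFiniteType ℂ K]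

/-- the pencil is stable -/
theorem stab {c : Place ℂ K → ℤ} {t : L} {C C' N : ℕ} {x : Fin 2 → K} {w0 : L}
    [Algebra.IsAlgebraic (Algebra.adjoin ℂ (Set.range fun i => algebraMap K L (x i))) L]
    (h : RankLe (pdv L) (fun P => c (bel K P)) ℂ⟮t⟯ C C')
    (hcl : ∀ z : L, IsAlgebraic ℂ⟮t⟯ z → z ∈ ℂ⟮t⟯)
    (hG : Gt (pdv L) (fun P => c (bel K P)) (fun i => algebraMap K L (x i)) N w0)
    (hx : AlgebraicIndependent ℂ x) (hbig : 4 * (C * N) ^ 2 < finrank K L)
    (σ : L ≃ₐ[K] L) : σ t ∈ ℂ⟮t⟯ := by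
  by_contra hcon
  have ht : Transcendental ℂ⟮t⟯ (σ t) := fun h => hcon (hcl _ h)
  have h1 := h.conj (σ.restrictScalars ℂ) fun m g hg => conj_V σ.symm hg
  have h2 := count2 hx hG (C := C) (C' := C')
    (fun m hm ι _ v hv hi => dim_le (E := ℂ⟮t⟯) h1 h ht hm v hv hi)
    (finBasis K L) (finBasis K L).linearIndependent
  omega

theorem exists_trans {t : L} (ht : Transcendental ℂ t) (hK : Algebra.trdeg ℂ L = 2)
    (hcl : ∀ z : L, IsAlgebraic ℂ⟮t⟯ z → z ∈ ℂ⟮t⟯) {x : Fin 2 → L}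
    (hx : IsTranscendenceBasis ℂ x) : ∃ i, Transcendental ℂ⟮t⟯ (x i) := by
  by_contra hcon
  push Not at hcon
  have h1 : ∀ i, x i ∈ ℂ⟮t⟯ := fun i => hcl _ (by
    have := hcon i
    rwa [Transcendental, not_not] at this)
  have h2 : IntermediateField.adjoin ℂ (Set.range x) ≤ ℂ⟮t⟯ := by
    rw [IntermediateField.adjoin_le_iff]
    rintro _ ⟨i, rfl⟩
    exact h1 i
  have h3 := hx.isAlgebraic_field
  have h4 : ∀ z : L, z ∈ ℂ⟮t⟯ := by
    intro z
    apply hcl
    let _ := (IntermediateField.inclusion h2).toRingHom.toAlgebra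
    have : IsScalarTower (IntermediateField.adjoin ℂ (Set.range x)) ℂ⟮t⟯ L :=
      IsScalarTower.of_algebraMap_eq fun _ => rfl
    exact (h3.isAlgebraic z).tower_top ℂ⟮t⟯
  have h5 : ℂ⟮t⟯ = ⊤ := by
    rw [eq_top_iff]
    exact fun z _ => h4 z
  have h6 := (isFF_simple ht).trdeg
  rw [h5, (IntermediateField.topEquiv (F := ℂ) (E := L)).trdeg_eq, hK] at h6
  norm_num at h6

/-- the subfield of `K` of the elements of `E` -/
noncomputable abbrev F0 (K : Type) {L : Type} [Field K] [Field L] [Algebra ℂ K] [Algebra ℂ L]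
    [Algebra K L] [IsScalarTower ℂ K L] (E : IntermediateField ℂ L) : IntermediateField ℂ K :=
  E.comap (IsScalarTower.toAlgHom ℂ K L)

theorem mem_F0 {E : IntermediateField ℂ L} {z : K} : z ∈ F0 K E ↔ algebraMap K L z ∈ E := Iff.rfl

/-- linear disjointness -/
theorem disj [IsGalois K L] {E : IntermediateField ℂ L}
    (hst : ∀ (σ : L ≃ₐ[K] L) (z : L), z ∈ E → σ z ∈ E) {ι : Type} [Fintype ι] (v : ι → K)
    (hv : LinearIndependent (F0 K E) v) : LinearIndependent E fun i => algebraMap K L (v i) := by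
  classical
  rw [Fintype.linearIndependent_iff] at hv ⊢
  intro g hg i
  by_contra h0
  have hg0 : (g i : L) ≠ 0 := fun h => h0 (Subtype.ext h)
  have htr : ∀ j, algebraMap K L (Algebra.trace K L ((g i : L)⁻¹ * g j)) ∈ E := by
    intro j
    rw [trace_eq_sum_automorphisms]
    exact sum_mem fun σ _ => hst σ _ (E.mul_mem (E.inv_mem (g i).2) (g j).2)
  have h1 := hv (fun j => ⟨_, htr j⟩) (by
    apply (algebraMap K L).injective
    rw [map_sum, map_zero]
    have h2 : ∀ j, algebraMap K L ((⟨_, htr j⟩ : F0 K E) • v j) =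
        ∑ σ : L ≃ₐ[K] L, σ ((g i : L)⁻¹ * (g j * algebraMap K L (v j))) := by
      intro j
      rw [Algebra.smul_def, map_mul]
      change algebraMap K L (Algebra.trace K L ((g i : L)⁻¹ * g j)) * _ = _
      rw [trace_eq_sum_automorphisms, Finset.sum_mul]
      refine Finset.sum_congr rfl fun σ _ => ?_
      rw [map_mul σ, map_mul σ, map_mul σ, AlgEquiv.commutes, mul_assoc]
    rw [Finset.sum_congr rfl fun j _ => h2 j, Finset.sum_comm]
    refine Finset.sum_eq_zero fun σ _ => ?_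
    rw [← map_sum, ← Finset.mul_sum]
    have h3 : ∑ j, (g j : L) * algebraMap K L (v j) = 0 := by
      rw [← hg]
      refine Finset.sum_congr rfl fun j _ => ?_
      rw [Algebra.smul_def]
      rfl
    rw [h3, mul_zero, map_zero]) i
  have h2 : Algebra.trace K L ((g i : L)⁻¹ * g i) = 0 := congrArg Subtype.val h1
  rw [inv_mul_cancel₀ hg0] at h2
  have h3 := congrArg (algebraMap K L) h2
  have hCL : CharZero L := charZero_of_injective_algebraMap (algebraMap ℂ L).injective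
  rw [trace_eq_sum_automorphisms, map_zero] at h3
  simp at h3

end

end Run7.h612.SP
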