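import Pool.Agent.R885.FinAc
import Pool.Agent.Helper700.Up2
import Pool.Agent.TH143.GE.Form

/-!
Pencils on surfaces without regular one-forms are rational.
-/

set_option autoImplicit false
set_option linter.unusedSectionVars false
set_option linter.overlappingInstances false

open FF Pool.Agent.W603.LV Pool.Agent.W602.GT Module IntermediateField

namespace Run7.h612.SP

/-- intermediate fields of finitely generated extensions are finitely generated, after
`Pool.Agent.N133.CC.ess_any` -/
theorem ess_any {k K : Type} [Field k] [Field K] [Algebra k K] [hess : Algebra.EssFiniteType k K]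
    (E : IntermediateField k K) : Algebra.EssFiniteType k E := by
  obtain ⟨ι, z, hz⟩ := exists_isTranscendenceBasis' k E
  have hzK : AlgebraicIndependent k (fun i => (z i : K)) :=
    hz.1.map' (f := E.val) E.val.injective
  have hfinι : Finite ι := by
    have h2 : Cardinal.mk ι ≤ Algebra.trdeg k K := hzK.cardinalMk_le_trdeg
    exact Cardinal.lt_aleph0_iff_finite.1 (h2.trans_lt (trdeg_lt_aleph0 k K))
  have hessE : Algebra.EssFiniteType k (IntermediateField.adjoin k (Set.range z)) := by
    rw [IntermediateField.essFiniteType_iff]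
    exact IntermediateField.fg_adjoin_of_finite (Set.finite_range z)
  have halg : Algebra.IsAlgebraic (IntermediateField.adjoin k (Set.range z)) E :=
    hz.isAlgebraic_field
  have hess1 : Algebra.EssFiniteType (IntermediateField.adjoin k (Set.range z)) K :=
    Algebra.EssFiniteType.of_comp k _ K
  have hfin1 := Pool.Agent.R885.fin_algClosure (IntermediateField.adjoin k (Set.range z)) K
  have hfin2 : FiniteDimensional (IntermediateField.adjoin k (Set.range z)) E := by
    let f : E →ₐ[IntermediateField.adjoin k (Set.range z)]
        algebraicClosure (IntermediateField.adjoin k (Set.range z)) K :=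
      { toFun := fun e => ⟨algebraMap E K e, mem_algebraicClosure_iff.2
          ((halg.isAlgebraic e).algebraMap)⟩
        map_one' := Subtype.ext (map_one (algebraMap E K))
        map_mul' := fun a b => Subtype.ext (map_mul (algebraMap E K) a b)
        map_zero' := Subtype.ext (map_zero (algebraMap E K))
        map_add' := fun a b => Subtype.ext (map_add (algebraMap E K) a b)
        commutes' := fun c => Subtype.ext rfl }
    exact FiniteDimensional.of_injective f.toLinearMap f.injective
  have h1 : Algebra.EssFiniteType (IntermediateField.adjoin k (Set.range z)) E := inferInstance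
  exact Algebra.EssFiniteType.comp k (IntermediateField.adjoin k (Set.range z)) E

variable {L : Type} [Field L] [Algebra ℂ L]

/-- There is a vector field which does not kill a transcendental function. -/
theorem exists_der_one {t : L} (ht : Transcendental ℂ t) : ∃ D : Derivation ℂ L L, D t = 1 := by
  have h1 : AlgebraicIndepOn ℂ id ({t} : Set L) := by
    have : Unique ({t} : Set L) := Set.uniqueSingleton t
    rw [AlgebraicIndepOn, algebraicIndependent_unique_type_iff]
    have h2 : ((default : ({t} : Set L)) : L) = t := Set.mem_singleton_iff.1 (default : ({t} : Set L)).2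
    rw [id, h2]
    exact ht
  obtain ⟨s, hs, hb⟩ := exists_isTranscendenceBasis_superset h1
  obtain ⟨D, hD⟩ := Pool.Agent.W602.GT.exists_der (fun z : s => (z : L)) hb fun _ => 1
  exact ⟨D, hD ⟨t, hs (Set.mem_singleton t)⟩⟩

/-- **Pencils on surfaces without regular one-forms are rational.** -/
theorem rational_pencil [Algebra.EssFiniteType ℂ L] {n : ℕ}
    (hq : ∀ φ : Derivation ℂ L L →ₗ[L] L, (∀ P : Place ℂ L, Divisorial n P →
      ∀ D : Derivation ℂ L L, DerReg P D → P.Reg (φ D)) → φ = 0)
    (E : IntermediateField ℂ L) (hE : Algebra.trdeg ℂ E = 1) : ∃ t : E, ℂ⟮t⟯ = ⊤ := by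
  have hff : IsFF ℂ E := ⟨ess_any E, hE⟩
  by_contra hrat
  obtain ⟨D0, hD0⟩ := exists_der (k := ℂ) (K := E)
  obtain ⟨f, hf0, hf⟩ := Pool.Agent.W619.PQ.exists_regular hrat hD0
  obtain ⟨t, ht⟩ := IsFF.exists_transcendental (k := ℂ) (K := E)
  have hDt := der_ne_zero hD0 ht
  have hDt' : ((D0 t : E) : L) ≠ 0 := fun h => hDt (Subtype.ext h)
  have htL : Transcendental ℂ (t : L) := fun h => ht (by
    have h1 := (isAlgebraic_algebraMap_iff (algebraMap E L).injective).1
      (show IsAlgebraic ℂ (algebraMap E L t) from h)
    exact h1)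
  let φ : Derivation ℂ L L →ₗ[L] L :=
    { toFun := fun D => (f : L) * D t / (D0 t : L)
      map_add' := fun D D' => by
        rw [Derivation.add_apply]
        ring
      map_smul' := fun a D => by
        rw [Derivation.smul_apply, RingHom.id_apply, smul_eq_mul, smul_eq_mul]
        ring }
  have hφ : ∀ D, φ D = (f : L) * D t / (D0 t : L) := fun _ => rfl
  have h0 := hq φ (fun P hP D hD => ?_)
  · obtain ⟨D, hD⟩ := exists_der_one htL
    have h1 := hφ D
    rw [h0, hD, mul_one, LinearMap.zero_apply, eq_comm, div_eq_zero_iff] at h1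
    rcases h1 with h1 | h1
    · exact hf0 (Subtype.ext h1)
    · exact hDt' h1
  -- the chain rule
  have hbas : IsTranscendenceBasis ℂ fun _ : Fin 1 => t := by
    have h1 : AlgebraicIndependent ℂ (fun _ : Fin 1 => t) := by
      rw [algebraicIndependent_unique_type_iff]
      exact ht
    refine h1.isTranscendenceBasis_of_lift_trdeg_le_of_finite ?_
    rw [hE]; simp
  have hch : ∀ g : E, D (g : L) = D (t : L) / (D0 t : L) * (D0 g : L) := by
    intro g
    have h1 := Pool.Agent.W73.PG.PULL.chain (L := L) (fun _ : Fin 1 => t) hbas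
      (fun _ => (D0 t)⁻¹ • D0) (fun i j => by
        rw [Subsingleton.elim i j, if_pos rfl, Derivation.smul_apply, smul_eq_mul,
          inv_mul_cancel₀ hDt]) D g
    rw [Fin.sum_univ_one, Derivation.smul_apply, smul_eq_mul] at h1
    change D (g : L) = D (t : L) * (((D0 t)⁻¹ * D0 g : E) : L) at h1
    rw [h1]
    push_cast
    ring
  rw [hφ]
  by_cases htriv : ∃ g : E, P.ord (algebraMap E L g) ≠ 0
  · obtain ⟨e, Q, hQ⟩ := FF.exists_over (K := E) P htriv
    have hu := ord_unif Q
    have hu0 : unif Q ≠ 0 := by
      intro h0
      rw [h0, Q.ord_zero] at hu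
      omega
    have hDu : D0 (unif Q) ≠ 0 := der_pi_ne_zero hD0 Q hu
    have hDu' : ((D0 (unif Q) : E) : L) ≠ 0 := fun h => hDu (Subtype.ext h)
    have h1 : (f : L) * D t / (D0 t : L) =
        algebraMap E L (f / D0 (unif Q)) * D ((unif Q : E) : L) := by
      rw [hch (unif Q), map_div₀]
      change _ = (f : L) / ((D0 (unif Q) : E) : L) * _
      field_simp
    rw [h1]
    refine P.reg_mul ?_ (hD _ ?_)
    · refine hQ.reg.2 (Or.inr ?_)
      rw [Q.ord_div hf0 hDu]
      have := hf Q
      unfold vo at this
      omega
    · change P.Reg (algebraMap E L (unif Q))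
      exact hQ.reg.2 (Or.inr (by omega))
  · push Not at htriv
    have h1 : (f : L) * D t / (D0 t : L) = algebraMap E L (f / D0 t) * D (t : L) := by
      rw [map_div₀]
      change _ = (f : L) / (D0 t : L) * _
      ring
    rw [h1]
    refine P.reg_mul (Or.inr (htriv _).ge) (hD _ (Or.inr (htriv t).ge))

end Run7.h612.SP
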