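import Pool.Agent.Run7.h612.SP.Fin
import Pool.Agent.Run7.h612.SP.One

/-!
Etale Galois covers of surfaces of general type with pencils of bounded canonical degree.
-/

set_option autoImplicit false
set_option linter.unusedSectionVars false
set_option linter.overlappingInstances false

open FF Pool.Agent.W603.LV Pool.Agent.W602.GT Pool.Agent.W603.PV Pool.Agent.Helper700 Module
  IntermediateField

namespace Run7.h612.SP

section

variable {K L : Type} [Field K] [Field L] [Algebra ℂ K] [Algebra ℂ L] [Algebra K L]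
  [IsScalarTower ℂ K L] [FiniteDimensional K L] [Algebra.EssFiniteType ℂ K] [IsGalois K L]

/-- the data of a pencil on an etale cover -/
theorem setup {N C : ℕ} (hN : GeneralTypeAt K N) (hu : Unr K L) {E : IntermediateField ℂ L}
    (hE : IsPencil E) (hC : CanonicalDegreeLe E C) (hq : (∃ z : E, ℂ⟮z⟯ = ⊤) ∨ QZero L) :
    ∃ (t : L) (c : Place ℂ K → ℤ) (C' : ℕ) (x : Fin 2 → K) (w0 : K), E = ℂ⟮t⟯ ∧
      Transcendental ℂ t ∧ RankLe (pdv L) (fun P => c (bel K P)) E C C' ∧
      Gt (pdv K) c x N w0 ∧ IsTranscendenceBasis ℂ x := by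
  obtain ⟨hK, hN0, ω, hω, D, hD0, hind⟩ := hN
  have hessL : Algebra.EssFiniteType ℂ L := Algebra.EssFiniteType.comp ℂ K L
  -- the generator of the pencil
  have hrat : ∃ z : E, ℂ⟮z⟯ = ⊤ := by
    rcases hq with hq | hq
    · exact hq
    · exact rational_pencil hq E hE.trdeg
  obtain ⟨z, hz⟩ := hrat
  have hEz : E = ℂ⟮(z : L)⟯ := by
    rw [← IntermediateField.lift_adjoin_simple, hz, IntermediateField.lift_top]
  have hff : IsFF ℂ E := ⟨ess_any E, hE.trdeg⟩
  have hzt : Transcendental ℂ (z : L) := by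
    intro h
    refine Pool.Agent.N87.FV.transcendental_of_top hz ?_
    exact (isAlgebraic_algebraMap_iff (algebraMap E L).injective).1
      (show IsAlgebraic ℂ (algebraMap E L z) from h)
  -- coordinates
  obtain ⟨x, hxdef⟩ : ∃ x : Fin 2 → K, x = fun i => ω i.succ D / ω 0 D := ⟨_, rfl⟩
  rw [← hxdef] at hind
  have hx : IsTranscendenceBasis ℂ x := by
    refine hind.isTranscendenceBasis_of_lift_trdeg_le_of_finite ?_
    rw [hK]
    simp
  have hder : ∀ i : Fin 2, ∃ D : Derivation ℂ K K, ∀ j, D (x j) = if i = j then 1 else 0 :=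
    fun i => Pool.Agent.W602.GT.exists_der x hx _
  choose F hF using hder
  have hKK : Unr K K := fun P _ => by
    obtain ⟨π, -, hπ⟩ := P.surj
    exact ⟨π, hπ⟩
  have hbel : ∀ P : Place ℂ K, bel K P = P := fun P =>
    bel_eq (K := K) (L := K) (e := 1) ⟨one_pos, fun f => by simp⟩
  have hmK : ∀ g m, g ∈ V (pdv K) (cK x) m ↔ ∃ ω ∈ forms 2 K m, ω F = g := by
    intro g m
    have h1 := mem_forms (K := K) (L := K) hK hKK hx (E' := F) (fun i j => hF i j) m g
    simp only [hbel] at h1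
    exact h1
  have hev : ∀ j, ω j D = jd D x ^ N * ω j F := fun j => by
    have h1 := form_eq hx hF (hω j).1
    exact congrFun h1 D
  have hj0 : jd D x ^ N ≠ 0 := by
    intro h0
    rw [hev, h0, zero_mul] at hD0
    exact hD0 rfl
  have hw0 : ω 0 F ≠ 0 := by
    intro h0
    rw [hev, h0, mul_zero] at hD0
    exact hD0 rfl
  have hwx : ∀ i, ω 0 F * x i = ω i.succ F := by
    intro i
    rw [hxdef]
    change ω 0 F * (ω i.succ D / ω 0 D) = _
    rw [hev, hev 0]
    field_simp
  -- lifted vector fields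
  have halg : Algebra.IsAlgebraic K L := Algebra.IsAlgebraic.of_finite K L
  have h1 : ∀ i, ∃ D' : Derivation ℂ L L, ∀ f, D' (algebraMap K L f) = algebraMap K L (F i f) :=
    fun i => by
      obtain ⟨D', h2, -⟩ := Pool.Agent.W357.PG.main.{0, 0} ℂ K L 2 hK (F i)
      exact ⟨D', h2⟩
  choose F' hF' using h1
  have hdual : ∀ i j, F' i (algebraMap K L (x j)) = if i = j then 1 else 0 := by
    intro i j
    rw [hF', hF]
    split_ifs
    · exact map_one _
    · exact map_zero _
  obtain ⟨C', hC'⟩ := hC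
  refine ⟨z, cK x, C', x, ω 0 F, hEz, hzt, ?_, ⟨hN0, hw0, (hmK _ _).2 ⟨ω 0, hω 0, rfl⟩, fun i =>
    (hmK _ _).2 ⟨ω i.succ, hω _, (hwx i).symm⟩⟩, hx⟩
  intro m hm s v hv hi
  have h2 : ∀ i, ∃ η ∈ forms 2 L m, η F' = v i := fun i =>
    (mem_forms hK hu hx hdual m (v i)).1 (hv i)
  choose η hη hηv using h2
  refine hC' m hm s η hη ?_
  refine LinearIndependent.of_comp (LinearMap.proj (R := E) (φ := fun _ => L) F') ?_
  have h3 : (LinearMap.proj (R := E) (φ := fun _ : Fin 2 → Derivation ℂ L L => L) F') ∘ η = v := by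
    funext i
    exact hηv i
  rw [h3]
  exact hi

/-- the linear bound for invariant pencils -/
theorem bound_stable {N C : ℕ} (hN : GeneralTypeAt K N) (hu : Unr K L)
    {E : IntermediateField ℂ L} (hE : IsPencil E) (hC : CanonicalDegreeLe E C)
    (hq : (∃ z : E, ℂ⟮z⟯ = ⊤) ∨ QZero L)
    (hst : ∀ (σ : L ≃ₐ[K] L) (z : L), z ∈ E → σ z ∈ E) : finrank K L ≤ 12 * (C * N) := by
  obtain ⟨t, c, C', x, w0, h1, h2, h3, h4, h5⟩ := setup hN hu hE hC hq
  have hcl := hE.closed
  subst h1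
  exact final hN.1 hu h2 h3 hcl h4 h5 hst

/-- the bound for all pencils -/
theorem bound {N C : ℕ} (hN : GeneralTypeAt K N) (hu : Unr K L)
    {E : IntermediateField ℂ L} (hE : IsPencil E) (hC : CanonicalDegreeLe E C)
    (hq : (∃ z : E, ℂ⟮z⟯ = ⊤) ∨ QZero L) :
    finrank K L ≤ max (4 * (C * N) ^ 2) (12 * (C * N)) := by
  by_cases hbig : finrank K L ≤ 4 * (C * N) ^ 2
  · exact hbig.trans (le_max_left _ _)
  push Not at hbig
  refine le_trans ?_ (le_max_right _ _)
  refine bound_stable hN hu hE hC hq ?_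
  obtain ⟨t, c, C', x, w0, h1, h2, h3, h4, h5⟩ := setup hN hu hE hC hq
  have hcl := hE.closed
  subst h1
  have halgKL : Algebra.IsAlgebraic K L := Algebra.IsAlgebraic.of_finite K L
  have hxL : IsTranscendenceBasis ℂ fun i => algebraMap K L (x i) := h5.algebraMap_comp (A := L)
  have haL : Algebra.IsAlgebraic
      (Algebra.adjoin ℂ (Set.range fun i => algebraMap K L (x i))) L := hxL.isAlgebraic
  have hGL : Gt (pdv L) (fun P => c (bel K P)) (fun i => algebraMap K L (x i)) N
      (algebraMap K L w0) := by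
    refine ⟨h4.pos, by simpa using h4.ne, pull_V hu h4.mem0, fun i => ?_⟩
    rw [← map_mul]
    exact pull_V hu (h4.mem i)
  intro σ z hz
  have h6 := stab h3 hcl hGL h5.1 hbig σ
  have h7 : ℂ⟮t⟯ ≤ (ℂ⟮t⟯).comap ((σ.restrictScalars ℂ : L ≃ₐ[ℂ] L) : L →ₐ[ℂ] L) :=
    adjoin_simple_le_iff.2 h6
  exact h7 hz

end

end Run7.h612.SP
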