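import Pool.Agent.Run7.h612.SP.Cnt

/-!
Sections and two pencils.
-/

set_option autoImplicit false
set_option linter.unusedSectionVars false

open FF Pool.Agent.W603.LV IntermediateField Polynomial

namespace Run7.h612.SP

variable {F : Type} [Field F] [Algebra ℂ F] {pd : Set (Place ℂ F)} {c : Place ℂ F → ℤ}

/-- primitive relations -/
theorem primitive_aux {t : F} (ht : t ≠ 0) {s : ℕ} (v : Fin s → F) (n : ℕ) :
    ∀ p : Fin s → ℂ[X], ∑ i, (p i).natDegree ≤ n → ∑ i, aeval t (p i) * v i = 0 →
      (∃ i, p i ≠ 0) → ∃ p : Fin s → ℂ[X], ∑ i, aeval t (p i) * v i = 0 ∧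
        ∃ i, (p i).coeff 0 ≠ 0 := by
  induction n with
  | zero =>
    intro p hp h0 ⟨i, hi⟩
    refine ⟨p, h0, i, fun hc => hi ?_⟩
    have h1 : (p i).natDegree = 0 := by
      have := Finset.single_le_sum (f := fun i => (p i).natDegree) (fun _ _ => Nat.zero_le _)
        (Finset.mem_univ i)
      omega
    rw [eq_C_of_natDegree_eq_zero h1, hc, C_0]
  | succ n ih =>
    intro p hp h0 ⟨i, hi⟩
    by_cases hex : ∃ i, (p i).coeff 0 ≠ 0
    · exact ⟨p, h0, hex⟩
    push Not at hex
    have h1 : ∀ i, divX (p i) * X = p i := fun i => by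
      have := divX_mul_X_add (p i)
      rwa [hex i, C_0, add_zero] at this
    have h2 : ∀ i, p i ≠ 0 → 1 ≤ (p i).natDegree := fun i hi => by
      by_contra hcon
      apply hi
      rw [eq_C_of_natDegree_eq_zero (by omega : (p i).natDegree = 0), hex i, C_0]
    refine ih (fun i => divX (p i)) ?_ ?_ ⟨i, fun hd => hi ?_⟩
    · have h3 : ∑ i, (divX (p i)).natDegree < ∑ i, (p i).natDegree := by
        refine Finset.sum_lt_sum (fun i _ => ?_) ⟨i, Finset.mem_univ i, ?_⟩
        · rw [natDegree_divX_eq_natDegree_tsub_one]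
          omega
        · rw [natDegree_divX_eq_natDegree_tsub_one]
          have := h2 i hi
          omega
      omega
    · have h3 : t * ∑ i, aeval t (divX (p i)) * v i = 0 := by
        rw [← h0, Finset.mul_sum]
        refine Finset.sum_congr rfl fun i _ => ?_
        conv_rhs => rw [← h1 i]
        rw [map_mul, aeval_X]
        ring
      exact (mul_eq_zero.1 h3).resolve_left ht
    · rw [← h1 i, hd, zero_mul]

theorem primitive {t : F} (ht : t ≠ 0) {s : ℕ} (v : Fin s → F)
    (hv : ¬ LinearIndependent ℂ⟮t⟯ v) : ∃ p : Fin s → ℂ[X], ∑ i, aeval t (p i) * v i = 0 ∧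
      ∃ i, (p i).coeff 0 ≠ 0 := by
  classical
  obtain ⟨g, hg, i0, hi0⟩ := Fintype.not_linearIndependent_iff.1 hv
  have h1 : ∀ i, ∃ p q : ℂ[X], aeval t q ≠ 0 ∧ (g i : F) * aeval t q = aeval t p := by
    intro i
    obtain ⟨p, q, hpq⟩ := (mem_adjoin_simple_iff ℂ _).1 (g i).2
    by_cases h0 : aeval t q = 0
    · refine ⟨0, 1, by simp, ?_⟩
      rw [hpq, h0]
      simp
    · refine ⟨p, q, h0, ?_⟩
      rw [hpq, div_mul_cancel₀ _ h0]
  choose p q hq hpq using h1
  have h2 : ∀ i, aeval t (p i * ∏ j ∈ Finset.univ.erase i, q j) =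
      (∏ j, aeval t (q j)) * (g i : F) := fun i => by
    rw [map_mul, ← hpq, ← Finset.mul_prod_erase _ _ (Finset.mem_univ i), map_prod]
    ring
  refine primitive_aux ht v _ (fun i => p i * ∏ j ∈ Finset.univ.erase i, q j) le_rfl ?_
    ⟨i0, fun h0 => hi0 ?_⟩
  · have h3 : ∑ i, aeval t (p i * ∏ j ∈ Finset.univ.erase i, q j) * v i =
        (∏ j, aeval t (q j)) * ∑ i, g i • v i := by
      rw [Finset.mul_sum]
      refine Finset.sum_congr rfl fun i _ => ?_
      rw [h2, Algebra.smul_def]
      change _ = _ * ((g i : F) * _)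
      ring
    rw [h3, hg, mul_zero]
  · have h3 := h2 i0
    rw [h0, map_zero, eq_comm] at h3
    have h4 := (mul_eq_zero.1 h3).resolve_left (Finset.prod_ne_zero_iff.2 fun i _ => hq i)
    exact Subtype.ext h4

/-- the elements `θ` such that `θ * t ^ i` is in `W` for `i ≤ j` -/
def Hs (W : Submodule ℂ F) (t : F) (j : ℕ) : Submodule ℂ F where
  carrier := {θ | ∀ i ≤ j, θ * t ^ i ∈ W}
  add_mem' h1 h2 i hi := by
    rw [add_mul]
    exact W.add_mem (h1 i hi) (h2 i hi)
  zero_mem' i _ := by
    rw [zero_mul]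
    exact W.zero_mem
  smul_mem' a g h i hi := by
    rw [smul_mul_assoc]
    exact W.smul_mem _ (h i hi)

theorem Hs_step {m r : ℕ} {t : F} (ht : t ≠ 0)
    (hr : ∀ (s : ℕ) (v : Fin s → F), (∀ i, v i ∈ V pd c m) → LinearIndependent ℂ⟮t⟯ v → s ≤ r)
    (j : ℕ) : Module.rank ℂ (Hs (V pd c m) t j) ≤
      r + Module.rank ℂ (Hs (V pd c m) t (j + 1)) := by
  classical
  let φ : Hs (V pd c m) t (j + 1) →ₗ[ℂ] Hs (V pd c m) t j :=
    (LinearMap.mulRight ℂ t).restrict fun θ hθ i hi => by
      have := hθ (i + 1) (by omega)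
      rw [LinearMap.mulRight_apply, mul_assoc, ← pow_succ']
      exact this
  have hφ : Function.Injective φ := by
    intro a b hab
    have h1 : (a : F) * t = b * t := congrArg Subtype.val hab
    exact Subtype.ext (mul_right_cancel₀ ht h1)
  rw [← Submodule.rank_quotient_add_rank (LinearMap.range φ), rank_range_of_injective φ hφ]
  refine add_le_add_left (rank_le fun s hs => ?_) _
  have e := s.equivFin.symm
  have h1 : ∀ a : Hs (V pd c m) t j ⧸ LinearMap.range φ, ∃ b, Submodule.Quotient.mk b = a :=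
    fun a => Submodule.Quotient.mk_surjective _ a
  choose lft hlft using h1
  let v : Fin s.card → F := fun i => (lft (e i) : F)
  have hv : ∀ i, v i ∈ V pd c m := fun i => by
    have := (lft (e i)).2 0 (Nat.zero_le _)
    rwa [pow_zero, mul_one] at this
  by_contra hcon
  have hdep : ¬ LinearIndependent ℂ⟮t⟯ v := fun h => hcon (hr _ v hv h)
  obtain ⟨p, hp, i0, hi0⟩ := primitive ht v hdep
  have hind := (hs.comp e e.injective)
  rw [Fintype.linearIndependent_iff] at hind
  refine hi0 (hind (fun i => (p i).coeff 0) ?_ i0)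
  -- the element `g`
  let h : Hs (V pd c m) t j := ∑ i, (p i).coeff 0 • lft (e i)
  have hh : (h : F) = ∑ i, algebraMap ℂ F ((p i).coeff 0) * v i := by
    simp only [h, v]
    rw [Submodule.coe_sum]
    refine Finset.sum_congr rfl fun i _ => ?_
    rw [Submodule.coe_smul, Algebra.smul_def]
  obtain ⟨g, hg⟩ : ∃ g : F, g = - ∑ i, aeval t (divX (p i)) * v i := ⟨_, rfl⟩
  have hgh : g * t = h := by
    rw [hh, hg]
    have h2 : ∑ i, aeval t (p i) * v i = (∑ i, aeval t (divX (p i)) * v i) * t +
        ∑ i, algebraMap ℂ F ((p i).coeff 0) * v i := by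
      rw [Finset.sum_mul, ← Finset.sum_add_distrib]
      refine Finset.sum_congr rfl fun i _ => ?_
      conv_lhs => rw [← divX_mul_X_add (p i)]
      rw [map_add, map_mul, aeval_X, aeval_C]
      ring
    rw [hp] at h2
    linear_combination h2
  have hgm : g ∈ Hs (V pd c m) t (j + 1) := by
    intro i hi P hP
    by_cases hreg : Ge P 0 t
    · have h2 : ∀ q : ℂ[X], Ge P 0 (aeval t q) := by
        intro q
        rw [aeval_eq_sum_range]
        refine Ge.sum _ _ fun l _ => ?_
        rw [Algebra.smul_def]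
        simpa using (Ge.const (P := P) (q.coeff l)).mul (hreg.pow l)
      have h3 : Ge P (m * c P) g := by
        rw [hg]
        refine (Ge.sum _ _ fun l _ => ?_).neg
        simpa using (h2 _).mul (hv l P hP)
      simpa using h3.mul (hreg.pow i)
    · unfold Ge at hreg
      push Not at hreg
      rcases Nat.eq_zero_or_pos i with h0 | h0
      · subst h0
        rw [pow_zero, mul_one]
        have h2 := h.2 0 (Nat.zero_le _) P hP
        rw [pow_zero, mul_one, ← hgh] at h2
        by_cases hg0 : g = 0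
        · exact Or.inl hg0
        right
        have h3 := h2.resolve_left (mul_ne_zero hg0 ht)
        rw [P.ord_mul hg0 ht] at h3
        omega
      · obtain ⟨l, rfl⟩ : ∃ l, i = l + 1 := ⟨i - 1, by omega⟩
        have h2 := h.2 l (by omega) P hP
        rw [← hgh] at h2
        have h3 : g * t ^ (l + 1) = g * t * t ^ l := by ring
        rw [h3]
        exact h2
  have h2 : φ ⟨g, hgm⟩ = h := Subtype.ext hgh
  have h3 : (Submodule.Quotient.mk h : Hs (V pd c m) t j ⧸ LinearMap.range φ) = 0 := by
    rw [Submodule.Quotient.mk_eq_zero]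
    exact ⟨_, h2⟩
  have h4 : (Submodule.Quotient.mk h : Hs (V pd c m) t j ⧸ LinearMap.range φ) =
      ∑ i, (p i).coeff 0 • ((e i : s) : Hs (V pd c m) t j ⧸ LinearMap.range φ) := by
    change (LinearMap.range φ).mkQ (∑ i, (p i).coeff 0 • lft (e i)) = _
    rw [map_sum]
    refine Finset.sum_congr rfl fun i _ => ?_
    rw [map_smul]
    congr 1
    exact hlft _
  rw [← h3, h4]
  rfl

/-- Two pencils of bounded degree bound the number of the sections. -/
theorem dim_le {t : F} {E : IntermediateField ℂ F} {C C' : ℕ} (h1 : RankLe pd c ℂ⟮t⟯ C C')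
    (h2 : RankLe pd c E C C') (ht : Transcendental E t) {m : ℕ} (hm : 1 ≤ m) {ι : Type}
    [Fintype ι] (v : ι → F) (hv : ∀ i, v i ∈ V pd c m) (hi : LinearIndependent ℂ v) :
    Fintype.card ι ≤ (C * m + C') ^ 2 := by
  have ht0 : t ≠ 0 := by
    rintro rfl
    exact ht isAlgebraic_zero
  have h3 : ∀ k : ℕ, Module.rank ℂ (Hs (V pd c m) t 0) ≤
      (k * (C * m + C') : ℕ) + Module.rank ℂ (Hs (V pd c m) t k) := by
    intro k
    induction k with
    | zero => simp
    | succ k ih =>
      refine ih.trans ?_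
      have := Hs_step (r := C * m + C') ht0 (fun s v hv hi => h1 m hm s v hv hi) k
      refine (add_le_add_right this _).trans ?_
      rw [← add_assoc]
      refine add_le_add_left ?_ _
      push_cast
      ring_nf
      exact le_rfl
  have h4 : Hs (V pd c m) t (C * m + C') = ⊥ := by
    rw [Submodule.eq_bot_iff]
    intro θ hθ
    by_contra h0
    have h5 := h2.fintype hm (fun i : Fin (C * m + C' + 1) => θ * t ^ (i : ℕ))
      (fun i => hθ i (by have := i.2; omega)) (smul_indep (pow_indep ht _) h0)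
    rw [Fintype.card_fin] at h5
    omega
  have h5 := h3 (C * m + C')
  rw [h4, rank_bot, add_zero] at h5
  have h6 : LinearIndependent ℂ fun i => (⟨v i, fun l hl => by
      obtain rfl : l = 0 := by omega
      rw [pow_zero, mul_one]
      exact hv i⟩ : Hs (V pd c m) t 0) := by
    refine LinearIndependent.of_comp (Submodule.subtype _) ?_
    exact hi
  have h7 := h6.cardinal_le_rank.trans h5
  rw [Cardinal.mk_fintype] at h7
  have h8 : Fintype.card ι ≤ (C * m + C') * (C * m + C') := by exact_mod_cast h7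
  nlinarith

end Run7.h612.SP
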